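import Pool.Agent.Y250.SS.Fin
import Pool.Agent.Y61.MB.M3
import Pool.Agent.Y61.MB.M8
set_option autoImplicit false

/-! Densities of two variables in higher dimensions. -/

namespace Pool.Agent.Y250.SS

open MeasureTheory Set Metric Complex Filter Topology
open scoped ENNReal NNReal RealInnerProductSpace
open Pool.Agent.Helper793.Nir (E3 S2 sig rot)
open Pool.Agent.H789R2.FR (E)
open Pool.Agent.Y61.MB (co co_norm transfer_ft exists_P')

/-- the coordinates as a continuous linear map -/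
noncomputable def coL {n m : ℕ} (v : Fin m → E n) (hv : Orthonormal ℝ v) : E n →L[ℝ] E m :=
  LinearMap.mkContinuous
    { toFun := co v
      map_add' := fun x y => by
        ext i
        simp [co, inner_add_right]
      map_smul' := fun c x => by
        ext i
        simp [co, inner_smul_right] } 1 (fun x => by
        rw [one_mul]
        exact co_norm v hv x)

theorem coL_apply {n m : ℕ} (v : Fin m → E n) (hv : Orthonormal ℝ v) (x : E n) :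
    coL v hv x = co v x := rfl

theorem coL_norm {n m : ℕ} (v : Fin m → E n) (hv : Orthonormal ℝ v) : ‖coL v hv‖ ≤ 1 :=
  LinearMap.mkContinuous_norm_le _ zero_le_one _

theorem der_comp {n m : ℕ} (v : Fin m → E n) (hv : Orthonormal ℝ v) (k : ℕ) (φ : E m → ℝ)
    (hφ : ContDiff ℝ k φ) (A : ℝ) (hA : ∀ y, ‖y‖ ≤ 1 → ‖iteratedFDeriv ℝ k φ y‖ ≤ A) (x : E n)
    (hx : ‖x‖ ≤ 1) : ‖iteratedFDeriv ℝ k (fun x => φ (co v x)) x‖ ≤ A := by
  have h1 : (fun x => φ (co v x)) = φ ∘ coL v hv := rfl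
  rw [h1, (coL v hv).iteratedFDeriv_comp_right hφ x le_rfl]
  refine (ContinuousMultilinearMap.norm_compContinuousLinearMap_le _ _).trans ?_
  have h2 : ∏ _i : Fin k, ‖coL v hv‖ ≤ 1 := by
    rw [Finset.prod_const]
    exact pow_le_one₀ (norm_nonneg _) (coL_norm v hv)
  have h3 : ‖iteratedFDeriv ℝ k φ (coL v hv x)‖ ≤ A := by
    apply hA
    rw [coL_apply]
    exact (co_norm v hv x).trans hx
  calc _ ≤ A * 1 := mul_le_mul h3 h2 (Finset.prod_nonneg fun _ _ => norm_nonneg _)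
        ((norm_nonneg _).trans h3)
    _ = A := mul_one A

/-- densities of two variables -/
theorem high (n : ℕ) (q s : ℝ) (hn : 4 ≤ n) (hq : 2 * (n : ℝ) / ((n : ℝ) - 1) < q) (hs : 1 / 3 ≤ s)
    (hs1 : s ≤ 1) :
    ∃ C : ℝ≥0, ∀ (k : ℕ) (φ : E 2 → ℝ) (A M K : ℝ≥0) (g : E 2 → ℂ) (u : Fin 2 → E 3)
      (v : Fin 2 → E n), 2 ≤ k → Orthonormal ℝ u → Orthonormal ℝ v →
      ContDiff ℝ k φ → (∀ y : E 2, ‖y‖ ≤ 1 → ‖iteratedFDeriv ℝ k φ y‖ ≤ A) → Measurable g →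
      (∀ y : E 2, ‖y‖ ≤ 1 → ‖g y‖ ≤ M) → BesS s K (fun x => g (co u x)) →
      eLpNorm (Pool.Agent.Y61.MB.ft fun x : sphere (0 : E n) 1 =>
          cexp ((φ (co v x) : ℂ) * I) * g (co v x)) (ENNReal.ofReal q) volume ≤
        C * (M + (k : ℝ≥0) ^ 8 * (1 + A / ((k - 2).factorial : ℝ≥0)) ^ (4 / (k : ℝ)) * K : ℝ≥0) := by
  have hn' : (4 : ℝ) ≤ n := by exact_mod_cast hn
  have hnm : ((n - 2 : ℕ) : ℝ) = (n : ℝ) - 2 := by
    rw [Nat.cast_sub (by omega)]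
    norm_num
  have h1 : 1 < (q - 2) * ((((n - 2 : ℕ) : ℝ) - 1) / 2 + 1) := by
    rw [div_lt_iff₀ (by linarith)] at hq
    rw [hnm]
    nlinarith
  obtain ⟨P, hP2, hP3, hPq⟩ := exists_P' (n - 2) (by omega) 1 q one_pos h1
  rw [mul_one] at hP3
  have hP : 3 < P := by linarith
  rw [hnm] at hPq
  have hsP : 1 / P < s := by
    refine lt_of_lt_of_le ?_ hs
    exact one_div_lt_one_div_of_lt (by norm_num) hP
  obtain ⟨C, hC, hT⟩ := transfer_ft n 2 (by norm_num) (by omega) P q hP2 (by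
    push_cast
    exact hPq)
  obtain ⟨C1, hC1⟩ := smooth P s hP hsP hs1
  refine ⟨C.toNNReal * max 1 C1, ?_⟩
  intro k φ A M K g u v hk hu hv hφ hA hg hgM hgB
  set X : ℝ≥0 := (k : ℝ≥0) ^ 8 * (1 + A / ((k - 2).factorial : ℝ≥0)) ^ (4 / (k : ℝ)) * K with hX
  have h3 := hC1 k (fun x => φ (co u x)) A K (fun x => g (co u x)) hk
    (hφ.comp (coL u hu).contDiff) (der_comp u hu k φ hφ A hA) hgB
  have h4 := (hT (fun y => cexp ((φ y : ℂ) * I) * g y)
    (((Complex.measurable_ofReal.comp hφ.continuous.measurable).mul_const I).cexp.mul hg)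
    M (C1 * X : ℝ≥0) (NNReal.coe_nonneg _) (fun y hy => by
      rw [norm_mul, Complex.norm_exp_ofReal_mul_I, one_mul]
      exact hgM y hy) u v hu hv (by
      rw [ENNReal.ofReal_coe_nnreal]
      push_cast
      exact h3)).2
  refine h4.trans ?_
  rw [← ENNReal.coe_mul, ENNReal.ofReal]
  norm_cast
  rw [Real.toNNReal_mul hC.le, mul_assoc]
  gcongr
  rw [Real.toNNReal_coe, mul_add]
  have h6 : (1 : ℝ≥0) ≤ max 1 C1 := le_max_left _ _
  have h7 : C1 ≤ max 1 C1 := le_max_right _ _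
  gcongr
  exact le_mul_of_one_le_left zero_le h6

/-- a fixed smooth phase at high frequency -/
theorem lam (q s : ℝ) (hq : 3 < q) (hs : 1 / q < s) (hs1 : s ≤ 1) (φ : E3 → ℝ)
    (hφ : ContDiff ℝ (⊤ : ℕ∞) φ) (ε : ℝ) (hε : 0 < ε) :
    ∃ C : ℝ≥0, ∀ (l : ℝ) (K : ℝ≥0) (g : S2 → ℂ), 1 ≤ |l| → BesS s K g →
      eLpNorm (ft fun x => cexp (((l * φ x : ℝ) : ℂ) * I) * g x) (ENNReal.ofReal q) volume ≤
        C * ENNReal.ofReal (|l| ^ ε) * K := by
  obtain ⟨C, hC⟩ := smooth q s hq hs hs1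
  obtain ⟨k, hk1, hk2⟩ : ∃ k : ℕ, 2 ≤ k ∧ 4 / (k : ℝ) ≤ ε := by
    obtain ⟨k, hk⟩ := exists_nat_gt (4 / ε)
    refine ⟨max 2 k, le_max_left _ _, ?_⟩
    have h1 : 4 / ε ≤ ((max 2 k : ℕ) : ℝ) := by
      refine hk.le.trans ?_
      exact_mod_cast le_max_right 2 k
    have h0 : (0 : ℝ) < ((max 2 k : ℕ) : ℝ) := by
      have : 0 < max 2 k := lt_of_lt_of_le (by norm_num) (le_max_left 2 k)
      exact_mod_cast this
    rw [div_le_iff₀ hε] at h1
    rw [div_le_iff₀ h0]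
    linarith
  have hφk : ContDiff ℝ (k : ℕ) φ := hφ.of_le (by exact_mod_cast le_top)
  obtain ⟨A, hA⟩ : ∃ A : ℝ≥0, ∀ x : E3, ‖x‖ ≤ 1 → ‖iteratedFDeriv ℝ k φ x‖ ≤ A := by
    have h1 : IsCompact (closedBall (0 : E3) 1) := isCompact_closedBall _ _
    obtain ⟨B, hB⟩ := (h1.image (hφk.continuous_iteratedFDeriv le_rfl)).isBounded.exists_norm_le
    refine ⟨B.toNNReal, fun x hx => ?_⟩
    exact (hB _ ⟨x, by simpa using hx, rfl⟩).trans (Real.le_coe_toNNReal B)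
  refine ⟨C * ((k : ℝ≥0) ^ 8 * (1 + A / ((k - 2).factorial : ℝ≥0)) ^ (4 / (k : ℝ))), ?_⟩
  intro l K g hl hg
  set L : ℝ≥0 := ⟨|l|, abs_nonneg l⟩ with hL
  have hL1 : 1 ≤ L := hl
  have h2 : ∀ x : E3, ‖x‖ ≤ 1 → ‖iteratedFDeriv ℝ k (fun x => l * φ x) x‖ ≤ (L * A : ℝ≥0) := by
    intro x hx
    have h3 : (fun x => l * φ x) = l • φ := rfl
    rw [h3, iteratedFDeriv_const_smul_apply (hφk.contDiffAt), norm_smul, Real.norm_eq_abs]
    push_cast
    exact mul_le_mul_of_nonneg_left (hA x hx) (abs_nonneg l)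
  have h4 := hC k (fun x => l * φ x) (L * A) K g hk1 (contDiff_const.mul hφk) h2 hg
  refine h4.trans ?_
  have h5 : ENNReal.ofReal (|l| ^ ε) = ((L ^ ε : ℝ≥0) : ℝ≥0∞) := by
    rw [ENNReal.ofReal, Real.toNNReal_of_nonneg (by positivity)]
    rfl
  rw [h5, ← ENNReal.coe_mul, ← ENNReal.coe_mul, ← ENNReal.coe_mul, ENNReal.coe_le_coe]
  have h6 : (1 + L * A / ((k - 2).factorial : ℝ≥0)) ^ (4 / (k : ℝ)) ≤
      L ^ ε * (1 + A / ((k - 2).factorial : ℝ≥0)) ^ (4 / (k : ℝ)) := by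
    calc (1 + L * A / ((k - 2).factorial : ℝ≥0)) ^ (4 / (k : ℝ))
        ≤ (L * (1 + A / ((k - 2).factorial : ℝ≥0))) ^ (4 / (k : ℝ)) := by
          apply NNReal.rpow_le_rpow _ (by positivity)
          rw [mul_add, mul_one, mul_div_assoc]
          gcongr
      _ = L ^ (4 / (k : ℝ)) * (1 + A / ((k - 2).factorial : ℝ≥0)) ^ (4 / (k : ℝ)) :=
          NNReal.mul_rpow
      _ ≤ _ := by
          gcongr
  calc C * ((k : ℝ≥0) ^ 8 * (1 + L * A / ((k - 2).factorial : ℝ≥0)) ^ (4 / (k : ℝ)) * K)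
      ≤ C * ((k : ℝ≥0) ^ 8 * (L ^ ε * (1 + A / ((k - 2).factorial : ℝ≥0)) ^ (4 / (k : ℝ))) * K) := by
        gcongr
    _ = _ := by ring

end Pool.Agent.Y250.SS
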