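import Pool.Agent.Y250.SS.Fin2
import Pool.Agent.Y250.SS.HD
set_option autoImplicit false

/-! Consequences of the theorem with the sharp regularity. -/

namespace Pool.Agent.Y250.SS

open MeasureTheory Set Metric Complex Filter Topology
open scoped ENNReal NNReal RealInnerProductSpace
open Pool.Agent.Helper793.Nir (E3 S2 sig rot)
open Pool.Agent.H789R2.FR (E)
open Pool.Agent.Y61.MB (co co_norm transfer_ft)

/-- a fixed smooth phase at high frequency -/
theorem lam2 (q s : ℝ) (hq : 3 < q) (hs0 : 0 < s) (hs : 4 / q - 1 < s) (hs1 : s ≤ 1) (φ : E3 → ℝ)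
    (hφ : ContDiff ℝ (⊤ : ℕ∞) φ) (ε : ℝ) (hε : 0 < ε) :
    ∃ C : ℝ≥0, ∀ (l : ℝ) (K : ℝ≥0) (g : S2 → ℂ), 1 ≤ |l| → BesS s K g →
      eLpNorm (ft fun x => cexp (((l * φ x : ℝ) : ℂ) * I) * g x) (ENNReal.ofReal q) volume ≤
        C * ENNReal.ofReal (|l| ^ ε) * K := by
  obtain ⟨C, hC⟩ := smooth2 q s hq hs0 hs hs1
  obtain ⟨k, hk1, hk2⟩ : ∃ k : ℕ, 2 ≤ k ∧ 4 / (k : ℝ) ≤ ε := by
    obtain ⟨k, hk⟩ := exists_nat_gt (4 / ε)
    refine ⟨max 2 k, le_max_left _ _, ?_⟩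
    have h1 : 4 / ε ≤ ((max 2 k : ℕ) : ℝ) := by
      refine hk.le.trans ?_
      exact_mod_cast le_max_right 2 k
    have h0 : (0 : ℝ) < ((max 2 k : ℕ) : ℝ) := by
      have : 0 < max 2 k := lt_of_lt_of_le (by norm_num) (le_max_left 2 k)
      exact_mod_cast this
    rw [div_le_iff₀ hε] at h1
    rw [div_le_iff₀ h0]
    linarith
  have hφk : ContDiff ℝ (k : ℕ) φ := hφ.of_le (by exact_mod_cast le_top)
  obtain ⟨A, hA⟩ : ∃ A : ℝ≥0, ∀ x : E3, ‖x‖ ≤ 1 → ‖iteratedFDeriv ℝ k φ x‖ ≤ A := by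
    have h1 : IsCompact (closedBall (0 : E3) 1) := isCompact_closedBall _ _
    obtain ⟨B, hB⟩ := (h1.image (hφk.continuous_iteratedFDeriv le_rfl)).isBounded.exists_norm_le
    refine ⟨B.toNNReal, fun x hx => ?_⟩
    exact (hB _ ⟨x, by simpa using hx, rfl⟩).trans (Real.le_coe_toNNReal B)
  refine ⟨C * ((k : ℝ≥0) ^ 8 * (1 + A / ((k - 2).factorial : ℝ≥0)) ^ (4 / (k : ℝ))), ?_⟩
  intro l K g hl hg
  set L : ℝ≥0 := ⟨|l|, abs_nonneg l⟩ with hL
  have hL1 : 1 ≤ L := hl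
  have h2 : ∀ x : E3, ‖x‖ ≤ 1 → ‖iteratedFDeriv ℝ k (fun x => l * φ x) x‖ ≤ (L * A : ℝ≥0) := by
    intro x hx
    have h3 : (fun x => l * φ x) = l • φ := rfl
    rw [h3, iteratedFDeriv_const_smul_apply (hφk.contDiffAt), norm_smul, Real.norm_eq_abs]
    push_cast
    exact mul_le_mul_of_nonneg_left (hA x hx) (abs_nonneg l)
  have h4 := hC k (fun x => l * φ x) (L * A) K g hk1 (contDiff_const.mul hφk) h2 hg
  refine h4.trans ?_
  have h5 : ENNReal.ofReal (|l| ^ ε) = ((L ^ ε : ℝ≥0) : ℝ≥0∞) := by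
    rw [ENNReal.ofReal, Real.toNNReal_of_nonneg (by positivity)]
    rfl
  rw [h5, ← ENNReal.coe_mul, ← ENNReal.coe_mul, ← ENNReal.coe_mul, ENNReal.coe_le_coe]
  have h6 : (1 + L * A / ((k - 2).factorial : ℝ≥0)) ^ (4 / (k : ℝ)) ≤
      L ^ ε * (1 + A / ((k - 2).factorial : ℝ≥0)) ^ (4 / (k : ℝ)) := by
    calc (1 + L * A / ((k - 2).factorial : ℝ≥0)) ^ (4 / (k : ℝ))
        ≤ (L * (1 + A / ((k - 2).factorial : ℝ≥0))) ^ (4 / (k : ℝ)) := by
          apply NNReal.rpow_le_rpow _ (by positivity)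
          rw [mul_add, mul_one, mul_div_assoc]
          gcongr
      _ = L ^ (4 / (k : ℝ)) * (1 + A / ((k - 2).factorial : ℝ≥0)) ^ (4 / (k : ℝ)) :=
          NNReal.mul_rpow
      _ ≤ _ := by
          gcongr
  calc C * ((k : ℝ≥0) ^ 8 * (1 + L * A / ((k - 2).factorial : ℝ≥0)) ^ (4 / (k : ℝ)) * K)
      ≤ C * ((k : ℝ≥0) ^ 8 * (L ^ ε * (1 + A / ((k - 2).factorial : ℝ≥0)) ^ (4 / (k : ℝ))) * K) := by
        gcongr
    _ = _ := by ring

/-- analytic phases -/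
theorem ana2 (q s : ℝ) (hq : 3 < q) (hs0 : 0 < s) (hs : 4 / q - 1 < s) (hs1 : s ≤ 1) :
    ∃ C : ℝ≥0, ∀ (φ : E3 → ℝ) (A R : ℝ) (K : ℝ≥0) (g : S2 → ℂ), 0 ≤ A → 1 ≤ R →
      ContDiff ℝ (⊤ : ℕ∞) φ →
      (∀ k : ℕ, 2 ≤ k → ∀ x : E3, ‖x‖ ≤ 1 →
        ‖iteratedFDeriv ℝ k φ x‖ ≤ A * R ^ k * k.factorial) →
      BesS s K g →
      eLpNorm (ft fun x => cexp ((φ x : ℂ) * I) * g x) (ENNReal.ofReal q) volume ≤
        C * ENNReal.ofReal (R ^ 4 * (2 + Real.log (1 + A)) ^ 8) * K := by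
  obtain ⟨C, hC⟩ := smooth2 q s hq hs0 hs hs1
  refine ⟨C * (2 ^ 8 * 25 * ⟨Real.exp 4, (Real.exp_pos 4).le⟩), ?_⟩
  intro φ A R K g hA hR hφ hder hg
  have hlog : 0 ≤ Real.log (1 + A) := Real.log_nonneg (by linarith)
  set k : ℕ := 2 + ⌈Real.log (1 + A)⌉₊ with hk
  have hk2 : 2 ≤ k := by omega
  have hkr : (2 : ℝ) ≤ k := by exact_mod_cast hk2
  have hk0 : (0 : ℝ) < k := by linarith
  have hk3 : Real.log (1 + A) ≤ k := by
    have h1 := Nat.le_ceil (Real.log (1 + A))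
    rw [hk]
    push_cast
    linarith
  have hk4 : (k : ℝ) ≤ 2 * (2 + Real.log (1 + A)) := by
    have h1 := (Nat.ceil_lt_add_one hlog).le
    rw [hk]
    push_cast
    linarith
  have hfac : ((k.factorial : ℕ) : ℝ) = k * (k - 1) * ((k - 2).factorial : ℕ) := by
    obtain ⟨m, hm⟩ : ∃ m, k = m + 2 := ⟨k - 2, by omega⟩
    rw [hm, Nat.add_sub_cancel, Nat.factorial_succ, Nat.factorial_succ]
    push_cast
    ring
  have hf0 : (0 : ℝ) < ((k - 2).factorial : ℕ) := by exact_mod_cast Nat.factorial_pos _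
  set M : ℝ≥0 := ⟨A * R ^ k * k.factorial, by positivity⟩ with hM
  have hMe : (M : ℝ) = A * R ^ k * k.factorial := rfl
  have h1 := hC k φ M K g hk2 (hφ.of_le (by exact_mod_cast le_top)) (fun x hx => hder k hk2 x hx) hg
  refine h1.trans ?_
  -- the factor
  have hpow : (1 + M / ((k - 2).factorial : ℝ≥0)) ^ (4 / (k : ℝ)) ≤
      25 * ⟨Real.exp 4, (Real.exp_pos 4).le⟩ * ⟨R ^ 4, by positivity⟩ := by
    rw [← NNReal.coe_le_coe]
    push_cast
    rw [hMe]
    change (1 + A * R ^ k * k.factorial / ((k - 2).factorial : ℝ)) ^ (4 / (k : ℝ)) ≤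
      25 * Real.exp 4 * R ^ 4
    have hRk : 1 ≤ R ^ k := one_le_pow₀ hR
    have e1 : A * R ^ k * k.factorial / ((k - 2).factorial : ℝ) = A * R ^ k * (k * (k - 1)) := by
      rw [hfac]
      field_simp
    rw [e1]
    have h2 : 1 + A * R ^ k * (k * (k - 1)) ≤ (1 + A) * (R ^ k * (1 + k ^ 2)) := by
      have h3 : (k : ℝ) * (k - 1) ≤ 1 + k ^ 2 := by nlinarith
      have h4 : 1 ≤ R ^ k * (1 + (k : ℝ) ^ 2) := by nlinarith
      have h5 : A * (R ^ k * ((k : ℝ) * (k - 1))) ≤ A * (R ^ k * (1 + k ^ 2)) := by gcongr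
      nlinarith
    calc (1 + A * R ^ k * (k * (k - 1))) ^ (4 / (k : ℝ))
        ≤ ((1 + A) * (R ^ k * (1 + k ^ 2))) ^ (4 / (k : ℝ)) := by
          apply Real.rpow_le_rpow _ h2 (by positivity)
          have : (0 : ℝ) ≤ k - 1 := by linarith
          positivity
      _ = (1 + A) ^ (4 / (k : ℝ)) * (R ^ 4 * (1 + (k : ℝ) ^ 2) ^ (4 / (k : ℝ))) := by
          rw [Real.mul_rpow (by positivity) (by positivity), Real.mul_rpow (by positivity)
            (by positivity), ← Real.rpow_natCast R k, ← Real.rpow_mul (by positivity),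
            mul_div_cancel₀ _ hk0.ne']
          norm_num
      _ ≤ Real.exp 4 * (R ^ 4 * 25) := by
          have a1 : (1 + A) ^ (4 / (k : ℝ)) ≤ Real.exp 4 := by
            rw [Real.rpow_def_of_pos (by positivity)]
            apply Real.exp_le_exp.mpr
            rw [mul_div_assoc', div_le_iff₀ hk0]
            linarith
          have a2 : (1 + (k : ℝ) ^ 2) ^ (4 / (k : ℝ)) ≤ 25 := by
            have b1 : 1 + (k : ℝ) ^ 2 ≤ Real.exp (k * Real.log 5 / 2) := by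
              -- 1 + k^2 ≤ 5^(k/2)
              have b2 : ∀ m : ℕ, (1 + ((m : ℝ) + 2) ^ 2) ≤ (5 : ℝ) ^ (((m : ℝ) + 2) / 2) := by
                intro m
                induction m with
                | zero => norm_num
                | succ m ih =>
                  have c1 : ((((m + 1 : ℕ) : ℝ)) + 2) / 2 = ((m : ℝ) + 2) / 2 + 1 / 2 := by
                    push_cast; ring
                  rw [c1, Real.rpow_add (by norm_num)]
                  have c2 : (2 : ℝ) ≤ (5 : ℝ) ^ (1 / 2 : ℝ) := by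
                    rw [← Real.sqrt_eq_rpow]
                    apply Real.le_sqrt_of_sq_le
                    norm_num
                  have c3 : (0 : ℝ) ≤ m := Nat.cast_nonneg m
                  calc 1 + (((m + 1 : ℕ) : ℝ) + 2) ^ 2 ≤ (1 + ((m : ℝ) + 2) ^ 2) * 2 := by
                        push_cast
                        nlinarith
                    _ ≤ _ := by gcongr
              have b3 := b2 (k - 2)
              have b4 : (((k - 2 : ℕ) : ℝ)) + 2 = k := by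
                rw [Nat.cast_sub hk2]
                norm_num
              rw [b4, Real.rpow_def_of_pos (by norm_num)] at b3
              refine b3.trans (le_of_eq ?_)
              congr 1
              ring
            calc (1 + (k : ℝ) ^ 2) ^ (4 / (k : ℝ)) ≤ (Real.exp (k * Real.log 5 / 2)) ^ (4 / (k : ℝ)) :=
                  Real.rpow_le_rpow (by positivity) b1 (by positivity)
              _ = Real.exp (2 * Real.log 5) := by
                  rw [← Real.exp_mul]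
                  congr 1
                  field_simp
                  ring
              _ = 25 := by
                  rw [two_mul, Real.exp_add, Real.exp_log (by norm_num)]
                  norm_num
          have a3 : (0 : ℝ) ≤ (1 + (k : ℝ) ^ 2) ^ (4 / (k : ℝ)) := by positivity
          gcongr
      _ = _ := by ring
  have hfin : (k : ℝ≥0) ^ 8 * (1 + M / ((k - 2).factorial : ℝ≥0)) ^ (4 / (k : ℝ)) * K ≤
      (2 ^ 8 * 25 * ⟨Real.exp 4, (Real.exp_pos 4).le⟩) *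
        ⟨R ^ 4 * (2 + Real.log (1 + A)) ^ 8, by positivity⟩ * K := by
    refine mul_le_mul' ?_ le_rfl
    have hk8 : (k : ℝ≥0) ^ 8 ≤ 2 ^ 8 * ⟨(2 + Real.log (1 + A)) ^ 8, by positivity⟩ := by
      rw [← NNReal.coe_le_coe]
      push_cast
      change (k : ℝ) ^ 8 ≤ 2 ^ 8 * (2 + Real.log (1 + A)) ^ 8
      rw [← mul_pow]
      gcongr
    calc (k : ℝ≥0) ^ 8 * (1 + M / ((k - 2).factorial : ℝ≥0)) ^ (4 / (k : ℝ))
        ≤ (2 ^ 8 * ⟨(2 + Real.log (1 + A)) ^ 8, by positivity⟩) *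
          (25 * ⟨Real.exp 4, (Real.exp_pos 4).le⟩ * ⟨R ^ 4, by positivity⟩) :=
          mul_le_mul' hk8 hpow
      _ = _ := by
          rw [← NNReal.coe_inj]
          push_cast
          change 2 ^ 8 * (2 + Real.log (1 + A)) ^ 8 * (25 * Real.exp 4 * R ^ 4) =
            2 ^ 8 * 25 * Real.exp 4 * (R ^ 4 * (2 + Real.log (1 + A)) ^ 8)
          ring
  have hF0 : 0 ≤ R ^ 4 * (2 + Real.log (1 + A)) ^ 8 := by positivity
  have e9 : ENNReal.ofReal (R ^ 4 * (2 + Real.log (1 + A)) ^ 8) =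
      (NNReal.mk (R ^ 4 * (2 + Real.log (1 + A)) ^ 8) hF0 : ℝ≥0∞) := by
    rw [ENNReal.ofReal, Real.toNNReal_of_nonneg hF0]
  rw [e9, ← ENNReal.coe_mul, ← ENNReal.coe_mul, ← ENNReal.coe_mul, ENNReal.coe_le_coe]
  have e10 : ∀ E F : ℝ≥0, C * (E * F * K) = C * E * F * K := fun E F => by ring
  exact (mul_le_mul' le_rfl hfin).trans (le_of_eq (e10 _ _))

/-- the choice of the exponent on the two-dimensional sphere -/
theorem choose_P (n : ℕ) (q s : ℝ) (hn : 4 ≤ n) (hq : 2 * (n : ℝ) / ((n : ℝ) - 1) < q) (hs0 : 0 < s)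
    (hs : 2 - ((n : ℝ) - 2) * (q - 2) < s * (2 - ((n : ℝ) - 4) * (q - 2))) :
    ∃ P : ℝ, 3 < P ∧ 4 / P - 1 < s ∧ 1 < (q - 2) * (((n : ℝ) - 2 - 1) / 2 + 1 / (P - 2)) := by
  have hn' : (4 : ℝ) ≤ n := by exact_mod_cast hn
  have hq2 : 0 < q - 2 := by
    have : (2 : ℝ) < 2 * (n : ℝ) / ((n : ℝ) - 1) := by
      rw [lt_div_iff₀ (by linarith)]
      linarith
    linarith
  have hqn : 2 < (q - 2) * ((n : ℝ) - 1) := by
    rw [div_lt_iff₀ (by linarith)] at hq
    nlinarith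
  set β : ℝ := 1 / (q - 2) - ((n : ℝ) - 3) / 2 with hβ
  have hβq : β * (q - 2) = 1 - ((n : ℝ) - 3) / 2 * (q - 2) := by
    rw [hβ, sub_mul, one_div_mul_cancel hq2.ne']
  have hβ1 : β < 1 := by
    by_contra hc
    have h1 : (q - 2) ≤ β * (q - 2) := by nlinarith
    rw [hβq] at h1
    nlinarith
  have hβs : β * (2 - 2 * s) < 1 + s := by
    by_contra hc
    have h1 : (1 + s) * (q - 2) ≤ β * (2 - 2 * s) * (q - 2) :=
      mul_le_mul_of_nonneg_right (not_lt.mp hc) hq2.le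
    have h2 : β * (2 - 2 * s) * (q - 2) = (2 - 2 * s) * (1 - ((n : ℝ) - 3) / 2 * (q - 2)) := by
      rw [← hβq]
      ring
    rw [h2] at h1
    nlinarith
  set m : ℝ := max 3 (4 / (1 + s)) with hm
  have hm3 : 3 ≤ m := le_max_left _ _
  have hm4 : 4 / (1 + s) ≤ m := le_max_right _ _
  have hβm : β * (m - 2) < 1 := by
    rcases le_total 3 (4 / (1 + s)) with h | h
    · rw [hm, max_eq_right h]
      have h1 : β * (4 / (1 + s) - 2) = β * (2 - 2 * s) / (1 + s) := by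
        field_simp
        ring
      rw [h1, div_lt_one (by linarith)]
      exact hβs
    · rw [hm, max_eq_left h]
      linarith
  set η : ℝ := (1 - β * (m - 2)) / (2 * (|β| + 1)) with hη
  have hb0 : 0 ≤ |β| := abs_nonneg β
  have hη0 : 0 < η := div_pos (by linarith) (by linarith)
  have hη1 : (|β| + 1) * η = (1 - β * (m - 2)) / 2 := by
    rw [hη]
    field_simp
  have hβη : β * η ≤ (1 - β * (m - 2)) / 2 := by
    have h1 : β * η ≤ |β| * η := mul_le_mul_of_nonneg_right (le_abs_self β) hη0.le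
    nlinarith
  refine ⟨m + η, by linarith, ?_, ?_⟩
  · rw [sub_lt_iff_lt_add, div_lt_iff₀ (by linarith)]
    rw [div_le_iff₀ (by linarith)] at hm4
    nlinarith
  · have hP2 : 0 < m + η - 2 := by linarith
    have h1 : β < 1 / (m + η - 2) := by
      rw [lt_div_iff₀ hP2]
      nlinarith
    have h2 : (q - 2) * (((n : ℝ) - 2 - 1) / 2 + β) = 1 := by
      have : (q - 2) * β = 1 - ((n : ℝ) - 3) / 2 * (q - 2) := by rw [mul_comm, hβq]
      rw [mul_add, this]
      ring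
    calc (1 : ℝ) = (q - 2) * (((n : ℝ) - 2 - 1) / 2 + β) := h2.symm
      _ < (q - 2) * (((n : ℝ) - 2 - 1) / 2 + 1 / (m + η - 2)) :=
        mul_lt_mul_of_pos_left (by linarith) hq2

/-- densities of two variables -/
theorem high2 (n : ℕ) (q s : ℝ) (hn : 4 ≤ n) (hq : 2 * (n : ℝ) / ((n : ℝ) - 1) < q) (hs0 : 0 < s)
    (hs1 : s ≤ 1) (hs : 2 - ((n : ℝ) - 2) * (q - 2) < s * (2 - ((n : ℝ) - 4) * (q - 2))) :
    ∃ C : ℝ≥0, ∀ (k : ℕ) (φ : E 2 → ℝ) (A M K : ℝ≥0) (g : E 2 → ℂ) (u : Fin 2 → E 3)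
      (v : Fin 2 → E n), 2 ≤ k → Orthonormal ℝ u → Orthonormal ℝ v →
      ContDiff ℝ k φ → (∀ y : E 2, ‖y‖ ≤ 1 → ‖iteratedFDeriv ℝ k φ y‖ ≤ A) → Measurable g →
      (∀ y : E 2, ‖y‖ ≤ 1 → ‖g y‖ ≤ M) → BesS s K (fun x => g (co u x)) →
      eLpNorm (Pool.Agent.Y61.MB.ft fun x : sphere (0 : E n) 1 =>
          cexp ((φ (co v x) : ℂ) * I) * g (co v x)) (ENNReal.ofReal q) volume ≤
        C * (M + (k : ℝ≥0) ^ 8 * (1 + A / ((k - 2).factorial : ℝ≥0)) ^ (4 / (k : ℝ)) * K : ℝ≥0) := by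
  obtain ⟨P, hP, hsP, hPq⟩ := choose_P n q s hn hq hs0 hs
  obtain ⟨C, hC, hT⟩ := transfer_ft n 2 (by norm_num) (by omega) P q (by linarith) (by
    push_cast
    exact hPq)
  obtain ⟨C1, hC1⟩ := smooth2 P s hP hs0 hsP hs1
  refine ⟨C.toNNReal * max 1 C1, ?_⟩
  intro k φ A M K g u v hk hu hv hφ hA hg hgM hgB
  set X : ℝ≥0 := (k : ℝ≥0) ^ 8 * (1 + A / ((k - 2).factorial : ℝ≥0)) ^ (4 / (k : ℝ)) * K with hX
  have h3 := hC1 k (fun x => φ (co u x)) A K (fun x => g (co u x)) hk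
    (hφ.comp (coL u hu).contDiff) (der_comp u hu k φ hφ A hA) hgB
  have h4 := (hT (fun y => cexp ((φ y : ℂ) * I) * g y)
    (((Complex.measurable_ofReal.comp hφ.continuous.measurable).mul_const I).cexp.mul hg)
    M (C1 * X : ℝ≥0) (NNReal.coe_nonneg _) (fun y hy => by
      rw [norm_mul, Complex.norm_exp_ofReal_mul_I, one_mul]
      exact hgM y hy) u v hu hv (by
      rw [ENNReal.ofReal_coe_nnreal]
      push_cast
      exact h3)).2
  refine h4.trans ?_
  rw [← ENNReal.coe_mul, ENNReal.ofReal]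
  norm_cast
  rw [Real.toNNReal_mul hC.le, mul_assoc]
  refine mul_le_mul' le_rfl ?_
  rw [Real.toNNReal_coe, mul_add]
  have h6 : (1 : ℝ≥0) ≤ max 1 C1 := le_max_left _ _
  have h7 : C1 ≤ max 1 C1 := le_max_right _ _
  exact add_le_add (le_mul_of_one_le_left zero_le h6) (mul_le_mul' h7 le_rfl)

end Pool.Agent.Y250.SS
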