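import Pool.Agent.Y250.SS.A7
set_option autoImplicit false

/-! Interpolation with the theorem of Tomas and Stein. -/

namespace Pool.Agent.Y250.SS

open MeasureTheory Set Complex Filter Topology
open scoped ENNReal NNReal
open Pool.Agent.Y250.PT (av avs bi bq av_sup av_meas av_bd av_sq bi_bd bi_meas bi_int jens bq_meas
  bq_vol mn mn_meas mn_int av_double bi_mul_int l2_eq av_sub)

/-- logarithmic convexity of the norms -/
lemma lcv {α : Type*} [MeasurableSpace α] {μ : Measure α} (F : α → ℂ)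
    (hF : AEStronglyMeasurable F μ) (q0 q1 q l : ℝ) (h0 : 0 < q0) (h1 : 0 < q1) (hq : 0 < q)
    (hl0 : 0 ≤ l) (hl1 : l ≤ 1) (h : (1 - l) / q0 + l / q1 = 1 / q) :
    eLpNorm F (ENNReal.ofReal q) μ ≤
      eLpNorm F (ENNReal.ofReal q0) μ ^ (1 - l) * eLpNorm F (ENNReal.ofReal q1) μ ^ l := by
  have hl : 0 ≤ 1 - l := by linarith
  have e : ∀ p : ℝ, 0 < p → eLpNorm F (ENNReal.ofReal p) μ = (∫⁻ x, ‖F x‖ₑ ^ p ∂μ) ^ (1 / p) := by
    intro p hp
    rw [eLpNorm_eq_lintegral_rpow_enorm_toReal (by simpa using hp) ENNReal.ofReal_ne_top,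
      ENNReal.toReal_ofReal hp.le]
  rw [e q hq, e q0 h0, e q1 h1]
  have hp0 : 0 ≤ (1 - l) * q / q0 := by positivity
  have hp1 : 0 ≤ l * q / q1 := by positivity
  have hp : (1 - l) * q / q0 + l * q / q1 = 1 := by
    have : (1 - l) * q / q0 + l * q / q1 = q * ((1 - l) / q0 + l / q1) := by ring
    rw [this, h, mul_one_div_cancel hq.ne']
  have hm : AEMeasurable (fun x => ‖F x‖ₑ) μ := hF.enorm
  have key := ENNReal.lintegral_mul_norm_pow_le (μ := μ) (hm.pow_const q0) (hm.pow_const q1) hp0 hp1 hp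
  have e1 : ∀ x, (‖F x‖ₑ ^ q0) ^ ((1 - l) * q / q0) * (‖F x‖ₑ ^ q1) ^ (l * q / q1) = ‖F x‖ₑ ^ q := by
    intro x
    rw [← ENNReal.rpow_mul, ← ENNReal.rpow_mul, ← ENNReal.rpow_add_of_nonneg _ _ (by positivity)
      (by positivity)]
    congr 1
    field_simp
    ring
  simp only [e1] at key
  calc (∫⁻ x, ‖F x‖ₑ ^ q ∂μ) ^ (1 / q)
      ≤ ((∫⁻ x, ‖F x‖ₑ ^ q0 ∂μ) ^ ((1 - l) * q / q0) * (∫⁻ x, ‖F x‖ₑ ^ q1 ∂μ) ^ (l * q / q1)) ^ (1 / q) :=
        ENNReal.rpow_le_rpow key (by positivity)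
    _ = _ := by
        rw [ENNReal.mul_rpow_of_nonneg _ _ (by positivity), ← ENNReal.rpow_mul, ← ENNReal.rpow_mul,
          ← ENNReal.rpow_mul, ← ENNReal.rpow_mul]
        congr 2 <;> field_simp

/-- the sharp exponents for averages -/
theorem box_I (q s : ℝ) (hq : 3 < q) (hs0 : 0 < s) (hs : 4 / q - 1 < s) (hs1 : s ≤ 1) :
    ∃ κ : ℝ, 0 ≤ κ ∧ κ ≤ 1 ∧ κ < s ∧ ∀ C1 : ℝ → ℝ≥0, ∃ C : ℝ≥0, ∀ (b : ℝ≥0) (D : Data b), 1 ≤ b →
      (∀ P, 4 < P → TSD D P (C1 P)) → ∀ δ : ℝ, 0 < δ → ∀ H : ℝ × ℝ → ℂ,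
      Integrable H → Measurable H → (∀ x : ℝ × ℝ, x ∉ D.S → av δ H x = 0) →
      eLpNorm (D.T (av δ H)) (ENNReal.ofReal q) volume ≤
        C * b * ENNReal.ofReal (δ ^ (-κ)) * eLpNorm H 2 volume := by
  have hq0 : 0 < q := by linarith
  have hav2 : ∀ (δ : ℝ) (_ : 0 < δ) (f : ℝ × ℝ → ℂ), Measurable f →
      eLpNorm (av δ f) 2 volume ≤ eLpNorm f 2 volume := by
    intro δ hδ f hf
    rw [l2_eq, l2_eq]
    exact ENNReal.rpow_le_rpow (av_sq δ hδ f hf) (by norm_num)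
  by_cases hq4 : 4 < q
  · refine ⟨0, le_rfl, zero_le_one, hs0, fun C1 => ⟨C1 q, ?_⟩⟩
    intro b D hb hTS δ hδ H hHi hHm hH
    have h1 := hTS q hq4 (av δ H) (av_meas δ H hHm) ⟨_, av_bd δ hδ H hHi⟩ hH
    refine h1.trans ?_
    rw [neg_zero, Real.rpow_zero, ENNReal.ofReal_one, mul_one]
    have hb' : (1 : ℝ≥0∞) ≤ b := by exact_mod_cast hb
    calc (C1 q : ℝ≥0∞) * eLpNorm (av δ H) 2 volume ≤ C1 q * 1 * eLpNorm H 2 volume := by
          rw [mul_one]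
          gcongr
          exact hav2 δ hδ H hHm
      _ ≤ _ := by gcongr
  · have hq4' : q ≤ 4 := not_lt.mp hq4
    set a : ℝ := 4 / q - 1 with ha
    have ha0 : 0 ≤ a := by
      rw [ha, sub_nonneg, le_div_iff₀ hq0]
      linarith
    have ha3 : a ≤ 1 / 3 := by
      rw [ha, sub_le_iff_le_add, div_le_iff₀ hq0]
      linarith
    have hq3 : 1 / q ≤ 1 / 3 := one_div_le_one_div_of_le (by norm_num) hq.le
    set ε : ℝ := min (1 / 2) (min ((s - a) / 2) ((q - 3) / 2)) with hε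
    have hε0 : 0 < ε := lt_min (by norm_num) (lt_min (by linarith) (by linarith))
    have hε1 : ε ≤ 1 / 2 := min_le_left _ _
    have hε2 : ε ≤ (s - a) / 2 := (min_le_right _ _).trans (min_le_left _ _)
    have hε3 : ε ≤ (q - 3) / 2 := (min_le_right _ _).trans (min_le_right _ _)
    set κ : ℝ := (1 + ε) * ((4 + ε) / q - 1) with hκ
    have e2 : (4 + ε) / q - 1 = a + ε * (1 / q) := by rw [ha]; ring
    have hq1' : 0 < 1 / q := by positivity
    have h2n : 0 ≤ (4 + ε) / q - 1 := by rw [e2]; positivity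
    have hκ0 : 0 ≤ κ := by positivity
    have hκs : κ < s := by
      have h3 : κ ≤ a + ε := by
        rw [hκ, e2]
        nlinarith [mul_nonneg hε0.le ha0, mul_nonneg hε0.le hq1'.le, mul_nonneg hε0.le hε0.le]
      linarith
    set l : ℝ := (4 + ε) * (1 - (3 + ε) / q) with hl
    have hl' : 1 - l = (3 + ε) * ((4 + ε) / q - 1) := by
      rw [hl]
      field_simp
      ring
    have hl0 : 0 ≤ l := by
      have : (3 + ε) / q ≤ 1 := by rw [div_le_one hq0]; linarith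
      have h1 : 0 ≤ 1 - (3 + ε) / q := by linarith
      positivity
    have hl1 : 0 ≤ 1 - l := by rw [hl']; positivity
    obtain ⟨C0, hC0⟩ := box_T (3 + ε) (1 + ε) (by linarith) (by linarith)
    refine ⟨κ, hκ0, by linarith, hκs, fun C1 => ⟨C0 ^ (1 - l) * C1 (4 + ε) ^ l, ?_⟩⟩
    intro b D hb hTS δ hδ H hHi hHm hH
    have h1 := hTS (4 + ε) (by linarith) (av δ H) (av_meas δ H hHm) ⟨_, av_bd δ hδ H hHi⟩ hH
    have h2 := hC0 b D hb δ hδ H hHi hHm hH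
    have h3 := lcv (μ := volume) (D.T (av δ H)) (D.T_meas _ (av_meas δ H hHm)).aestronglyMeasurable
      (3 + ε) (4 + ε) q l (by linarith) (by linarith) hq0 hl0 (by linarith) (by
        rw [hl', hl]
        field_simp
        ring)
    refine h3.trans ?_
    set N : ℝ≥0∞ := eLpNorm H 2 volume with hN
    have h1' : eLpNorm (D.T (av δ H)) (ENNReal.ofReal (4 + ε)) volume ≤ C1 (4 + ε) * N :=
      h1.trans (mul_le_mul' le_rfl (hav2 δ hδ H hHm))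
    have hb' : (b : ℝ≥0∞) ^ (1 - l) ≤ b := by
      have hb1 : (1 : ℝ≥0∞) ≤ b := by exact_mod_cast hb
      calc (b : ℝ≥0∞) ^ (1 - l) ≤ (b : ℝ≥0∞) ^ (1 : ℝ) :=
            ENNReal.rpow_le_rpow_of_exponent_le hb1 (by linarith)
        _ = b := ENNReal.rpow_one _
    have hNN : N ^ (1 - l) * N ^ l = N := by
      rw [← ENNReal.rpow_add_of_nonneg _ _ hl1 hl0, sub_add_cancel, ENNReal.rpow_one]
    have hδ' : ENNReal.ofReal (δ ^ (-((1 + ε) / (3 + ε)))) ^ (1 - l) = ENNReal.ofReal (δ ^ (-κ)) := by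
      rw [ENNReal.ofReal_rpow_of_pos (by positivity), ← Real.rpow_mul hδ.le]
      congr 2
      rw [hl', hκ]
      have : (3 + ε) ≠ 0 := by linarith
      field_simp
    calc eLpNorm (D.T (av δ H)) (ENNReal.ofReal (3 + ε)) volume ^ (1 - l) *
          eLpNorm (D.T (av δ H)) (ENNReal.ofReal (4 + ε)) volume ^ l
        ≤ (C0 * b * ENNReal.ofReal (δ ^ (-((1 + ε) / (3 + ε)))) * N) ^ (1 - l) *
          (C1 (4 + ε) * N) ^ l := by gcongr
      _ = (C0 : ℝ≥0∞) ^ (1 - l) * (C1 (4 + ε) : ℝ≥0∞) ^ l * (b : ℝ≥0∞) ^ (1 - l) *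
          ENNReal.ofReal (δ ^ (-κ)) * (N ^ (1 - l) * N ^ l) := by
          rw [ENNReal.mul_rpow_of_nonneg _ _ hl1, ENNReal.mul_rpow_of_nonneg _ _ hl1,
            ENNReal.mul_rpow_of_nonneg _ _ hl1, ENNReal.mul_rpow_of_nonneg _ _ hl0, hδ']
          ring
      _ ≤ (C0 : ℝ≥0∞) ^ (1 - l) * (C1 (4 + ε) : ℝ≥0∞) ^ l * b *
          ENNReal.ofReal (δ ^ (-κ)) * N := by
          rw [hNN]
          gcongr
      _ = _ := by
          rw [ENNReal.coe_mul, ENNReal.coe_rpow_of_nonneg _ hl1, ENNReal.coe_rpow_of_nonneg _ hl0]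

/-- **the abstract estimate with the sharp regularity** -/
theorem ab2 (q s : ℝ) (hq : 3 < q) (hs0 : 0 < s) (hs : 4 / q - 1 < s) (hs1 : s ≤ 1) (C1 : ℝ → ℝ≥0) :
    ∃ C : ℝ≥0, ∀ (b : ℝ≥0) (D : Data b)
      (r : ℝ) (g : ℝ × ℝ → ℂ) (K : ℝ≥0), 1 ≤ b → (∀ P, 4 < P → TSD D P (C1 P)) → 0 < r → r ≤ 1 →
      Bes s K g → (∀ z z' : ℝ × ℝ, ‖z - z'‖ ≤ r → z' ∉ D.S → g z = 0) →
      eLpNorm (D.T g) (ENNReal.ofReal q) volume ≤ C * b * K * ENNReal.ofReal (1 / r) := by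
  obtain ⟨κ, hκ0, hκ1, hκs, h⟩ := box_I q s hq hs0 hs hs1
  obtain ⟨C, hC⟩ := h C1
  obtain ⟨A, hA⟩ := ab_of q s κ (by linarith) hs1 hκ0 hκ1 hκs
  refine ⟨C * A, ?_⟩
  intro b D r g K hb hTS hr hr1 hg hsup
  have h1 := hA b D (C * b) (fun δ hδ H hHi hHm hH => by
    rw [ENNReal.coe_mul]
    exact hC b D hb hTS δ hδ H hHi hHm hH) r g K hr hr1 hg hsup
  refine h1.trans (le_of_eq ?_)
  push_cast
  ring

end Pool.Agent.Y250.SS
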