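import Pool.Agent.Y250.SS.Stm
import Pool.Agent.Y250.PT.K
set_option autoImplicit false

/-! The abstract estimate: the pieces. -/

namespace Pool.Agent.Y250.SS

open MeasureTheory Set Complex Filter Topology
open scoped ENNReal NNReal
open Pool.Agent.Y183.PP (ch planc wsum SS SS_bound SS_nonneg)
open Pool.Agent.Y250.PT (av avs bi bq av_sup av_meas av_bd av_sq bi_bd bi_meas bi_int)



variable {b : ℝ} (D : Data b)

lemma Data.ex_norm (y : ℝ × ℝ) (t : ℝ) (z : ℝ × ℝ) : ‖D.ex y t z‖ = 1 :=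
  Complex.norm_exp_ofReal_mul_I _

lemma Data.ex_meas (y : ℝ × ℝ) (t : ℝ) : Measurable (D.ex y t) := by
  unfold Data.ex
  have h1 := D.φ_meas
  have h2 := D.η_meas
  fun_prop

lemma Data.ex_ch (y : ℝ × ℝ) (t : ℝ) (z : ℝ × ℝ) : D.ex y t z = D.ex 0 t z * ch y z := by
  unfold Data.ex ch
  rw [← Complex.exp_add]
  congr 1
  push_cast
  simp only [Prod.fst_zero, Prod.snd_zero]
  push_cast
  ring

lemma Data.ex_add (y y' : ℝ × ℝ) (t : ℝ) (z : ℝ × ℝ) : D.ex (y + y') t z = D.ex y t z * ch y' z := by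
  rw [D.ex_ch (y + y'), D.ex_ch y, mul_assoc]
  congr 1
  unfold ch
  rw [← Complex.exp_add]
  congr 1
  simp only [Prod.fst_add, Prod.snd_add]
  push_cast
  ring

lemma Data.S_vol : volume D.S ≤ 4 := by
  refine (measure_mono D.S_sub).trans (le_of_eq ?_)
  rw [Measure.volume_eq_prod, Measure.prod_prod, Real.volume_Icc, ← ENNReal.ofReal_mul (by norm_num)]
  norm_num

lemma Data.S_fin : IsFiniteMeasure ((volume : Measure (ℝ × ℝ)).restrict D.S) := ⟨by
  rw [Measure.restrict_apply_univ]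
  exact D.S_vol.trans_lt (by norm_num)⟩

/-- the pieces -/
def Data.AA (t : ℝ) : ℕ → Set (ℝ × ℝ)
  | 0 => (D.B 0 t)ᶜ
  | (j + 1) => D.B j t \ D.B (j + 1) t

lemma Data.B_meas' (k : ℕ) (t : ℝ) : MeasurableSet (D.B k t) := by
  have h := (D.B_meas k).preimage (measurable_prodMk_left (x := t))
  exact h

lemma Data.AA_meas (t : ℝ) (k : ℕ) : MeasurableSet (D.AA t k) := by
  cases k with
  | zero => exact (D.B_meas' _ _).compl
  | succ j => exact (D.B_meas' _ _).diff (D.B_meas' _ _)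

lemma Data.AA_sub (t : ℝ) (k : ℕ) : D.AA t k ⊆ (D.B k t)ᶜ := by
  cases k with
  | zero => exact fun z hz => hz
  | succ j => exact fun z hz => hz.2

lemma Data.AA_sum (t : ℝ) (h : ℝ × ℝ → ℂ) (J : ℕ) (z : ℝ × ℝ) :
    (D.B J t)ᶜ.indicator h z = ∑ k ∈ Finset.range (J + 1), (D.AA t k).indicator h z := by
  induction J with
  | zero => simp [Data.AA]
  | succ J ih =>
    rw [Finset.sum_range_succ, ← ih]
    have hsub := D.anti J t
    by_cases h1 : z ∈ D.B J t
    · have e1 : z ∉ (D.B J t)ᶜ := fun h => h h1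
      rw [indicator_of_notMem e1, zero_add]
      by_cases h2 : z ∈ D.B (J + 1) t
      · rw [indicator_of_notMem (show z ∉ (D.B (J + 1) t)ᶜ from fun h => h h2),
          indicator_of_notMem (show z ∉ D.AA t (J + 1) from fun h => h.2 h2)]
      · rw [indicator_of_mem h2, indicator_of_mem (show z ∈ D.AA t (J + 1) from ⟨h1, h2⟩)]
    · have h2 : z ∉ D.B (J + 1) t := fun h => h1 (hsub h)
      rw [indicator_of_mem h2, indicator_of_mem h1, indicator_of_notMem (fun h => h1 h.1), add_zero]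

/-- the part of the integral over `A` -/
noncomputable def Data.Fp (g : ℝ × ℝ → ℂ) (A : Set (ℝ × ℝ)) (y : ℝ × ℝ) (t : ℝ) : ℂ :=
  ∫ z in D.S, A.indicator (fun z => g z * D.ex y t z) z

lemma Data.part_int (g : ℝ × ℝ → ℂ) (hg : Measurable g) (V : ℝ) (hV : 0 ≤ V)
    (hgB : ∀ z, ‖g z‖ ≤ V) (A : Set (ℝ × ℝ)) (hA : MeasurableSet A) (y : ℝ × ℝ) (t : ℝ) :
    IntegrableOn (A.indicator (fun z => g z * D.ex y t z)) D.S := by
  apply Measure.integrableOn_of_bounded (M := V)
  · exact (D.S_vol.trans_lt (by norm_num)).ne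
  · exact ((hg.mul (D.ex_meas y t)).indicator hA).aestronglyMeasurable
  · apply ae_of_all
    intro z
    by_cases h : z ∈ A
    · rw [indicator_of_mem h, norm_mul, D.ex_norm, mul_one]
      exact hgB _
    · rw [indicator_of_notMem h, norm_zero]
      exact hV

/-- the `L²` norm of a part -/
lemma Data.part_sq (g : ℝ × ℝ → ℂ) (hg : Measurable g) (V : ℝ) (hV : 0 ≤ V)
    (hgB : ∀ z, ‖g z‖ ≤ V) (A : Set (ℝ × ℝ)) (hA : MeasurableSet A) (t : ℝ) :
    ∫⁻ y, ‖D.Fp g A y t‖ₑ ^ 2 = ∫⁻ z in D.S ∩ A, ‖g z‖ₑ ^ 2 := by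
  set H : ℝ × ℝ → ℂ := (D.S ∩ A).indicator (fun z => g z * D.ex 0 t z) with hH
  have hm : Measurable H := (hg.mul (D.ex_meas _ _)).indicator (D.S_meas.inter hA)
  have hHb : ∀ z, ‖H z‖ ≤ V := by
    intro z
    by_cases h : z ∈ D.S ∩ A
    · simp only [hH]
      rw [indicator_of_mem h, norm_mul, D.ex_norm, mul_one]
      exact hgB _
    · simp only [hH]
      rw [indicator_of_notMem h, norm_zero]
      exact hV
  have hfin := D.S_fin
  have hsupp : ∀ z, z ∉ D.S → H z = 0 := fun z hz => indicator_of_notMem (fun h => hz h.1) _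
  have hHi : D.S.indicator H = H := by
    ext z
    by_cases h : z ∈ D.S
    · rw [indicator_of_mem h]
    · rw [indicator_of_notMem h, hsupp z h]
  have hp : ∀ p : ℝ≥0∞, MemLp H p volume := by
    intro p
    rw [← hHi, memLp_indicator_iff_restrict D.S_meas]
    exact MemLp.of_bound hm.aestronglyMeasurable V (ae_of_all _ hHb)
  have hpl := planc H (memLp_one_iff_integrable.mp (hp 1)) (hp 2)
  have e1 : ∀ y, D.Fp g A y t = ∫ z, H z * ch y z := by
    intro y
    unfold Data.Fp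
    rw [← integral_indicator D.S_meas]
    congr 1
    ext z
    by_cases h : z ∈ D.S
    · rw [indicator_of_mem h]
      by_cases h2 : z ∈ A
      · simp only [hH]
        rw [indicator_of_mem h2, indicator_of_mem (show z ∈ D.S ∩ A from ⟨h, h2⟩), D.ex_ch]
        ring
      · simp only [hH]
        rw [indicator_of_notMem h2, indicator_of_notMem (fun h3 => h2 h3.2), zero_mul]
    · rw [indicator_of_notMem h, hsupp z h, zero_mul]
  simp only [e1]
  rw [hpl, ← lintegral_indicator (D.S_meas.inter hA)]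
  apply lintegral_congr
  intro z
  by_cases h : z ∈ D.S ∩ A
  · rw [indicator_of_mem h]
    simp only [hH]
    rw [indicator_of_mem h, enorm_mul, ← ofReal_norm (D.ex 0 t z), D.ex_norm, ENNReal.ofReal_one, mul_one]
  · rw [indicator_of_notMem h]
    simp only [hH]
    rw [indicator_of_notMem h]
    simp

/-- **the time integral** -/
lemma Data.time' (k : ℕ) (W : ℝ × ℝ → ℝ≥0∞) (hW : Measurable W) :
    ∫⁻ t : ℝ, ∫⁻ z in D.S ∩ D.AA t k, W z ≤ ENNReal.ofReal (2 ^ k) * ∫⁻ z in D.S, W z := by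
  set f : ℝ × (ℝ × ℝ) → ℝ≥0∞ := {w : ℝ × (ℝ × ℝ) | w.2 ∈ D.B k w.1}ᶜ.indicator
    (fun w => W w.2) with hf
  have hfm : Measurable f := (hW.comp measurable_snd).indicator (D.B_meas _).compl
  calc ∫⁻ t : ℝ, ∫⁻ z in D.S ∩ D.AA t k, W z ≤ ∫⁻ t : ℝ, ∫⁻ z in D.S, f (t, z) := by
        apply lintegral_mono
        intro t
        have e1 : ∀ z, f (t, z) = (D.B k t)ᶜ.indicator W z := by
          intro z
          simp only [hf]
          by_cases h : z ∈ D.B k t
          · have h1 : ((t, z) : ℝ × (ℝ × ℝ)) ∉ {w : ℝ × (ℝ × ℝ) | w.2 ∈ D.B k w.1}ᶜ :=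
              fun h' => h' h
            have h2 : z ∉ (D.B k t)ᶜ := fun h' => h' h
            rw [indicator_of_notMem h1, indicator_of_notMem h2]
          · have h1 : ((t, z) : ℝ × (ℝ × ℝ)) ∈ {w : ℝ × (ℝ × ℝ) | w.2 ∈ D.B k w.1}ᶜ := h
            have h2 : z ∈ (D.B k t)ᶜ := h
            rw [indicator_of_mem h1, indicator_of_mem h2]
        simp only [e1]
        rw [lintegral_indicator (D.B_meas' _ _).compl, Measure.restrict_restrict (D.B_meas' _ _).compl,
          inter_comm (D.B k t)ᶜ]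
        exact lintegral_mono_set (inter_subset_inter_right _ (D.AA_sub t k))
    _ = ∫⁻ z in D.S, ∫⁻ t : ℝ, f (t, z) := by
        have := D.S_fin
        rw [lintegral_lintegral_swap]
        exact hfm.aemeasurable
    _ ≤ ∫⁻ z in D.S, ENNReal.ofReal (2 ^ k) * W z := by
        apply setLIntegral_mono' D.S_meas
        intro z hz
        have e1 : ∀ t, f (t, z) = {t : ℝ | z ∉ D.B k t}.indicator (fun _ => W z) t := by
          intro t
          simp only [hf]
          by_cases h : z ∈ D.B k t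
          · have h1 : ((t, z) : ℝ × (ℝ × ℝ)) ∉ {w : ℝ × (ℝ × ℝ) | w.2 ∈ D.B k w.1}ᶜ :=
              fun h' => h' h
            have h2 : t ∉ {t : ℝ | z ∉ D.B k t} := fun h' => h' h
            rw [indicator_of_notMem h1, indicator_of_notMem h2]
          · have h1 : ((t, z) : ℝ × (ℝ × ℝ)) ∈ {w : ℝ × (ℝ × ℝ) | w.2 ∈ D.B k w.1}ᶜ := h
            have h2 : t ∈ {t : ℝ | z ∉ D.B k t} := h
            rw [indicator_of_mem h1, indicator_of_mem h2]
        simp only [e1]
        rw [lintegral_indicator_const, mul_comm]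
        · gcongr
          exact D.time k z hz
        · have h := (D.B_meas k).compl
          have e2 : {t : ℝ | z ∉ D.B k t} =
              (fun t : ℝ => (t, z)) ⁻¹' {w : ℝ × (ℝ × ℝ) | w.2 ∈ D.B k w.1}ᶜ := by
            ext t; simp
          rw [e2]
          exact h.preimage (by fun_prop)
    _ = _ := by
        rw [lintegral_const_mul _ hW]

lemma c2_ge : (1 : ℝ) ≤ Pool.Agent.Y183.PP.c2 (0 + 2) := by
  unfold Pool.Agent.Y183.PP.c2
  have := Pool.Agent.Y183.PP.c1_nonneg (0 + 2)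
  have h1 : 0 ≤ 2 * Pool.Agent.Y183.PP.c1 (0 + 2) := by positivity
  have h2 : 0 ≤ 12 * (15 * ((0 + 2 : ℕ) : ℝ) + 1) * Pool.Agent.Y183.PP.c1 (0 + 2) := by positivity
  push_cast at h2 ⊢
  linarith

/-- the sup bound without amplitude -/
lemma Data.sup_one (hb : 1 ≤ b) (k : ℕ) (y : ℝ × ℝ) (t : ℝ) :
    ‖∫ z in D.S, (D.AA t k).indicator (D.ex y t) z‖ ≤ b * SS 0 1 k := by
  cases k with
  | zero =>
    have hbd : ∀ z, ‖(D.AA t 0).indicator (D.ex y t) z‖ ≤ 1 := by
      intro z
      by_cases h : z ∈ D.AA t 0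
      · rw [indicator_of_mem h, D.ex_norm]
      · rw [indicator_of_notMem h, norm_zero]
        norm_num
    have hfin := D.S_fin
    have h1 : ‖∫ z in D.S, (D.AA t 0).indicator (D.ex y t) z‖ ≤ 1 * (volume.restrict D.S).real univ :=
      norm_integral_le_of_norm_le_const (ae_of_all _ hbd)
    have h2 : (volume.restrict D.S).real univ ≤ 4 := by
      rw [Measure.real, Measure.restrict_apply_univ]
      have := ENNReal.toReal_mono (by norm_num) D.S_vol
      simpa using this
    simp only [SS]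
    linarith
  | succ j =>
    have h1 := D.sup j y t
    refine le_trans (le_of_eq ?_) (h1.trans ?_)
    · rfl
    · simp only [SS]
      have h2 := c2_ge
      have h3 : (0 : ℝ) ≤ b * ((1 + j) / 2 ^ j) := by positivity
      push_cast
      have h4 : b * ((1 + (j : ℝ)) / 2 ^ j) * 1 ≤
          b * ((1 + (j : ℝ)) / 2 ^ j) * (2 * Pool.Agent.Y183.PP.c2 (0 + 2)) := by
        gcongr
        linarith
      calc b * (1 + (j : ℝ)) / 2 ^ j = b * ((1 + (j : ℝ)) / 2 ^ j) * 1 := by ring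
        _ ≤ _ := h4
        _ = _ := by ring

/-- the sup bound of a piece for an average -/
lemma Data.sup_av (hb : 1 ≤ b) (k : ℕ) (y : ℝ × ℝ) (t : ℝ) (δ : ℝ)
    (hδ : 0 < δ) (H : ℝ × ℝ → ℂ) (hH : Integrable H) (hHm : Measurable H) :
    ‖D.Fp (av δ H) (D.AA t k) y t‖ₑ ≤
      ENNReal.ofReal (b * SS 0 1 k / δ) * (∫⁻ z, ‖H z‖ₑ ^ 2) ^ (1 / 2 : ℝ) := by
  set F : ℝ × ℝ → ℂ := (D.S ∩ D.AA t k).indicator (D.ex y t) with hF
  have hSm : MeasurableSet (D.S ∩ D.AA t k) := D.S_meas.inter (D.AA_meas t k)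
  have hFm : Measurable F := (D.ex_meas y t).indicator hSm
  have hFB : ∀ z, ‖F z‖ ≤ 1 := by
    intro z
    simp only [hF]
    by_cases h : z ∈ D.S ∩ D.AA t k
    · rw [indicator_of_mem h, D.ex_norm]
    · rw [indicator_of_notMem h, norm_zero]
      norm_num
  have hFi : Integrable F := by
    simp only [hF]
    rw [integrable_indicator_iff hSm]
    apply Measure.integrableOn_of_bounded (M := 1)
    · exact ((measure_mono inter_subset_left).trans_lt (D.S_vol.trans_lt (by norm_num))).ne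
    · exact (D.ex_meas y t).aestronglyMeasurable
    · exact ae_of_all _ fun z => by rw [D.ex_norm]
  have hS : ∀ y', ‖∫ z, F z * ch y' z‖ ≤ b * SS 0 1 k := by
    intro y'
    have h1 := D.sup_one hb k (y + y') t
    refine le_trans (le_of_eq ?_) h1
    congr 1
    rw [← integral_indicator D.S_meas]
    congr 1
    ext z
    by_cases h : z ∈ D.S
    · rw [indicator_of_mem h]
      by_cases h2 : z ∈ D.AA t k
      · simp only [hF]
        rw [indicator_of_mem h2, indicator_of_mem (show z ∈ D.S ∩ D.AA t k from ⟨h, h2⟩), D.ex_add]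
      · simp only [hF]
        rw [indicator_of_notMem h2, indicator_of_notMem (fun h3 => h2 h3.2), zero_mul]
    · rw [indicator_of_notMem h]
      simp only [hF]
      rw [indicator_of_notMem (fun h3 => h h3.1), zero_mul]
  have h1 := av_sup δ hδ F H hFm hFi 1 hFB hH hHm (b * SS 0 1 k) hS
  refine le_trans (le_of_eq ?_) h1
  congr 1
  unfold Data.Fp
  rw [← integral_indicator D.S_meas]
  congr 1
  ext z
  by_cases h : z ∈ D.S
  · rw [indicator_of_mem h]
    by_cases h2 : z ∈ D.AA t k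
    · simp only [hF]
      rw [indicator_of_mem h2, indicator_of_mem (show z ∈ D.S ∩ D.AA t k from ⟨h, h2⟩)]
      ring
    · simp only [hF]
      rw [indicator_of_notMem h2, indicator_of_notMem (fun h3 => h2 h3.2), zero_mul]
  · rw [indicator_of_notMem h]
    simp only [hF]
    rw [indicator_of_notMem (fun h3 => h h3.1), zero_mul]

/-- the trivial bound of a part -/
lemma Data.part_triv (g : ℝ × ℝ → ℂ) (hg : Measurable g) (A : Set (ℝ × ℝ)) (y : ℝ × ℝ) (t : ℝ) :
    ‖D.Fp g A y t‖ₑ ≤ 2 * (∫⁻ z, ‖g z‖ₑ ^ 2) ^ (1 / 2 : ℝ) := by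
  have h1 : ‖D.Fp g A y t‖ₑ ≤ ∫⁻ z in D.S, 1 * ‖g z‖ₑ := by
    unfold Data.Fp
    refine (enorm_integral_le_lintegral_enorm _).trans ?_
    apply lintegral_mono
    intro z
    simp only
    by_cases h : z ∈ A
    · rw [indicator_of_mem h, enorm_mul, ← ofReal_norm (D.ex y t z), D.ex_norm,
        ENNReal.ofReal_one, mul_one, one_mul]
    · rw [indicator_of_notMem h, enorm_zero]
      exact zero_le
  have a3 := ENNReal.lintegral_mul_le_Lp_mul_Lq ((volume : Measure (ℝ × ℝ)).restrict D.S)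
    (Real.HolderConjugate.two_two) (f := fun _ => 1) (g := fun z => ‖g z‖ₑ)
    aemeasurable_const hg.enorm.aemeasurable
  simp only [Pi.mul_apply, ENNReal.rpow_two, one_pow, lintegral_one, Measure.restrict_apply_univ] at a3
  have h4 : (volume D.S) ^ (1 / 2 : ℝ) ≤ 2 := by
    have e : (2 : ℝ≥0∞) = 4 ^ (1 / 2 : ℝ) := by
      rw [show (4 : ℝ≥0∞) = 2 ^ (2 : ℝ) by norm_num, ← ENNReal.rpow_mul]
      norm_num
    rw [e]
    exact ENNReal.rpow_le_rpow D.S_vol (by norm_num)
  refine h1.trans (a3.trans ?_)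
  gcongr
  exact Measure.restrict_le_self

end Pool.Agent.Y250.SS
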