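import Pool.Agent.Y250.SS.A2
import Pool.Agent.Y250.PT.M
set_option autoImplicit false

/-! The abstract estimate: supports, averages, increments. -/

namespace Pool.Agent.Y250.SS

open MeasureTheory Set Complex Filter Topology
open scoped ENNReal NNReal
open Pool.Agent.Y250.PT (av avs bi bq av_sup av_meas av_bd av_sq bi_bd bi_meas bi_int jens bq_meas
  bq_vol mn mn_meas mn_int av_double bi_mul_int l2_eq)

variable {b : ℝ} (D : Data b)

/-- the closed `r`-neighbourhood of the support is in the domain -/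
def Data.Sq (r : ℝ) (g : ℝ × ℝ → ℂ) : Prop := ∀ z z' : ℝ × ℝ, ‖z - z'‖ ≤ r → z' ∉ D.S → g z = 0

variable {D}

lemma Sq_mono {r r' : ℝ} {g : ℝ × ℝ → ℂ} (h : D.Sq r g) (hr : r' ≤ r) : D.Sq r' g :=
  fun z z' h1 h2 => h z z' (h1.trans hr) h2

lemma Sq_supp {r : ℝ} {g : ℝ × ℝ → ℂ} (h : D.Sq r g) (hr : 0 ≤ r) (z : ℝ × ℝ) (hz : z ∉ D.S) :
    g z = 0 := h z z (by simpa using hr) hz

lemma Sq_shift {r δ : ℝ} {g : ℝ × ℝ → ℂ} (h : D.Sq r g) (c : ℝ × ℝ) (hc : ‖c‖ ≤ δ) :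
    D.Sq (r - δ) fun x => g (x - c) := by
  intro z z' h1 h2
  apply h (z - c) z' _ h2
  calc ‖z - c - z'‖ = ‖(z - z') - c‖ := by congr 1; abel
    _ ≤ ‖z - z'‖ + ‖c‖ := norm_sub_le _ _
    _ ≤ r := by linarith

lemma bq_norm {δ : ℝ} {u : ℝ × ℝ} (hu : u ∈ bq δ) : ‖u‖ ≤ δ := by
  rw [Prod.norm_def]
  apply max_le
  · rw [Real.norm_eq_abs, abs_of_nonneg hu.1.1]
    exact hu.1.2.le
  · rw [Real.norm_eq_abs, abs_of_nonneg hu.2.1]
    exact hu.2.2.le

lemma Sq_av {r δ : ℝ} {g : ℝ × ℝ → ℂ} (h : D.Sq r g) : D.Sq (r - δ) (av δ g) := by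
  intro z z' h1 h2
  unfold PT.av
  have e : (fun u => bi δ u * g (z - u)) = fun _ => 0 := by
    ext u
    by_cases hu : u ∈ bq δ
    · have h3 := Sq_shift h u (bq_norm hu) z z' h1 h2
      simp only at h3
      rw [h3, mul_zero]
    · unfold PT.bi
      rw [indicator_of_notMem hu, zero_mul]
  rw [e]
  simp

lemma n00 (δ : ℝ) (hδ : 0 ≤ δ) : ‖((δ, 0) : ℝ × ℝ)‖ ≤ δ := by
  rw [Prod.norm_def]
  simp [abs_of_nonneg hδ, hδ]

lemma n01 (δ : ℝ) (hδ : 0 ≤ δ) : ‖((0, δ) : ℝ × ℝ)‖ ≤ δ := by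
  rw [Prod.norm_def]
  simp [abs_of_nonneg hδ, hδ]

lemma n11 (δ : ℝ) (hδ : 0 ≤ δ) : ‖((δ, δ) : ℝ × ℝ)‖ ≤ δ := by
  rw [Prod.norm_def]
  simp [abs_of_nonneg hδ]

lemma Sq_mn {r δ : ℝ} (hδ : 0 ≤ δ) {g : ℝ × ℝ → ℂ} (h : D.Sq r g) : D.Sq (r - δ) (mn δ g) := by
  intro z z' h1 h2
  unfold PT.mn
  have h0 := Sq_mono h (show r - δ ≤ r by linarith) z z' h1 h2
  have a1 := Sq_shift h (δ, 0) (n00 δ hδ) z z' h1 h2
  have a2 := Sq_shift h (0, δ) (n01 δ hδ) z z' h1 h2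
  have a3 := Sq_shift h (δ, δ) (n11 δ hδ) z z' h1 h2
  simp only at a1 a2 a3
  rw [h0, a1, a2, a3]
  simp

lemma int_of {g : ℝ × ℝ → ℂ} (hg : Measurable g) {r : ℝ} (hr : 0 ≤ r) (hs : D.Sq r g)
    (h2 : ∫⁻ z, ‖g z‖ₑ ^ 2 ≠ ∞) : Integrable g := by
  have h3 : eLpNorm g 2 volume ≠ ∞ := by
    rw [l2_eq]
    exact ENNReal.rpow_ne_top_of_nonneg (by norm_num) h2
  have hm : MemLp g 2 volume := ⟨hg.aestronglyMeasurable, h3.lt_top⟩
  have hfin := D.S_fin
  have h1 : IntegrableOn g D.S := (hm.restrict D.S).integrable (by norm_num)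
  rw [integrableOn_iff_integrable_of_support_subset] at h1
  · exact h1
  · intro x hx
    rw [Function.mem_support] at hx
    by_contra hc
    exact hx (Sq_supp hs hr x hc)

lemma l1_l2 {f : ℝ × ℝ → ℂ} (hf : Measurable f) {r : ℝ} (hr : 0 ≤ r) (hs : D.Sq r f) :
    ∫⁻ x, ‖f x‖ₑ ≤ 2 * (∫⁻ x, ‖f x‖ₑ ^ 2) ^ (1 / 2 : ℝ) := by
  have e1 : ∫⁻ x, ‖f x‖ₑ = ∫⁻ x in D.S, 1 * ‖f x‖ₑ := by
    rw [← lintegral_indicator D.S_meas]
    apply lintegral_congr
    intro x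
    by_cases h : x ∈ D.S
    · rw [indicator_of_mem h, one_mul]
    · rw [indicator_of_notMem h, Sq_supp hs hr x h, enorm_zero]
  have a3 := ENNReal.lintegral_mul_le_Lp_mul_Lq ((volume : Measure (ℝ × ℝ)).restrict D.S)
    (Real.HolderConjugate.two_two) (f := fun _ => 1) (g := fun z => ‖f z‖ₑ)
    aemeasurable_const hf.enorm.aemeasurable
  simp only [Pi.mul_apply, ENNReal.rpow_two, one_pow, lintegral_one, Measure.restrict_apply_univ] at a3
  have h4 : (volume D.S) ^ (1 / 2 : ℝ) ≤ 2 := by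
    have e : (2 : ℝ≥0∞) = 4 ^ (1 / 2 : ℝ) := by
      rw [show (4 : ℝ≥0∞) = 2 ^ (2 : ℝ) by norm_num, ← ENNReal.rpow_mul]
      norm_num
    rw [e]
    exact ENNReal.rpow_le_rpow D.S_vol (by norm_num)
  rw [e1]
  refine a3.trans ?_
  gcongr
  exact Measure.restrict_le_self

/-- averages are close to the function -/
lemma avc (δ : ℝ) (hδ : 0 < δ) (f g : ℝ × ℝ → ℂ) (hf : Measurable f) (hfi : Integrable f)
    (hg : Measurable g) :
    ∫⁻ z, ‖av δ f z - g z‖ₑ ^ 2 ≤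
      ENNReal.ofReal ((δ ^ 2)⁻¹) * ∫⁻ u in bq δ, ∫⁻ z, ‖f (z - u) - g z‖ₑ ^ 2 := by
  have h := jens δ hδ (fun p => f (p.1 - p.2) - g p.1)
    ((hf.comp (measurable_fst.sub measurable_snd)).sub (hg.comp measurable_fst))
  have e1 : ∀ z, av δ f z - g z = (((δ ^ 2)⁻¹ : ℝ) : ℂ) * ∫ u, bi δ u * (f (z - u) - g z) := by
    intro z
    have i1 : Integrable fun u => bi δ u * f (z - u) := by
      apply (hfi.comp_sub_left z).bdd_mul (c := 1) (bi_meas δ).aestronglyMeasurable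
      exact ae_of_all _ fun u => bi_bd δ u
    have i2 : Integrable fun u => bi δ u * g z := (bi_int δ hδ.le).mul_const _
    have e2 : ∫ u, bi δ u = ((δ ^ 2 : ℝ) : ℂ) := by
      unfold PT.bi
      rw [integral_indicator_const _ (bq_meas δ), Measure.real, bq_vol δ hδ.le,
        ENNReal.toReal_ofReal (by positivity)]
      simp
    have e3 : ∫ u, bi δ u * (f (z - u) - g z) = (∫ u, bi δ u * f (z - u)) - (∫ u, bi δ u) * g z := by
      rw [← integral_mul_const, ← integral_sub i1 i2]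
      congr 1
      ext u
      ring
    rw [e3, e2]
    unfold PT.av
    have hne : ((δ ^ 2 : ℝ) : ℂ) ≠ 0 := by
      have : (δ ^ 2 : ℝ) ≠ 0 := by positivity
      exact_mod_cast this
    rw [mul_sub, ← mul_assoc, Complex.ofReal_inv, inv_mul_cancel₀ hne, one_mul]
  simp only [e1]
  exact h

/-- the distance to translated averages -/
lemma avt {s : ℝ} (hs0 : 0 ≤ s) (hs1 : s ≤ 1) {K : ℝ≥0} {g : ℝ × ℝ → ℂ} (hg : Bes s K g)
    (hgi : Integrable g) (δ δ' : ℝ) (hδ : 0 < δ) (hδ' : δ ≤ δ') (hδ2 : δ' ≤ 2 * δ)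
    (h3 : 3 * δ ≤ 1) (c : ℝ × ℝ) (hc : ‖c‖ ≤ δ) :
    eLpNorm (fun z => av δ' (fun x => g (x - c)) z - g z) 2 volume ≤
      9 * (K * ENNReal.ofReal (δ ^ s)) := by
  have hδ'0 : 0 < δ' := by linarith
  have hgc : Measurable fun x => g (x - c) := hg.1.comp (measurable_id.sub measurable_const)
  have h1 := avc δ' hδ'0 (fun x => g (x - c)) g hgc (hgi.comp_sub_right c) hg.1
  set F : ℝ × ℝ → ℝ≥0∞ := fun h => ∫⁻ z, ‖g (z - h) - g z‖ₑ ^ 2 with hF
  have hFm : Measurable F := by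
    have h5 : Measurable fun p : (ℝ × ℝ) × (ℝ × ℝ) => ‖g (p.2 - p.1) - g p.2‖ₑ ^ 2 :=
      ((hg.1.comp (measurable_snd.sub measurable_fst)).sub (hg.1.comp measurable_snd)).enorm.pow_const 2
    exact h5.lintegral_prod_right'
  have h2 : ∫⁻ u in bq δ', ∫⁻ z, ‖(fun x => g (x - c)) (z - u) - g z‖ₑ ^ 2 ≤
      ∫⁻ h in {h : ℝ × ℝ | ‖h‖ ≤ 3 * δ}, F h := by
    have hBm : MeasurableSet {h : ℝ × ℝ | ‖h‖ ≤ 3 * δ} := measurableSet_le measurable_norm measurable_const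
    calc ∫⁻ u in bq δ', ∫⁻ z, ‖(fun x => g (x - c)) (z - u) - g z‖ₑ ^ 2
        = ∫⁻ u in bq δ', F (u + c) := by
          apply lintegral_congr
          intro u
          simp only [hF]
          apply lintegral_congr
          intro z
          rw [sub_add_eq_sub_sub]
      _ ≤ ∫⁻ u, {h : ℝ × ℝ | ‖h‖ ≤ 3 * δ}.indicator F (u + c) := by
          rw [← lintegral_indicator (bq_meas δ')]
          apply lintegral_mono
          intro u
          by_cases hu : u ∈ bq δ'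
          · have h6 : u + c ∈ {h : ℝ × ℝ | ‖h‖ ≤ 3 * δ} := by
              have := bq_norm hu
              show ‖u + c‖ ≤ 3 * δ
              exact (norm_add_le _ _).trans (by linarith)
            simp only
            rw [indicator_of_mem hu, indicator_of_mem h6]
          · simp only
            rw [indicator_of_notMem hu]
            exact zero_le
      _ = ∫⁻ h, {h : ℝ × ℝ | ‖h‖ ≤ 3 * δ}.indicator F h :=
          lintegral_add_right_eq_self (fun h => {h : ℝ × ℝ | ‖h‖ ≤ 3 * δ}.indicator F h) c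
      _ = _ := lintegral_indicator hBm _
  have h4 := hg.2.2 (3 * δ) (by linarith) h3
  have h7 : ∫⁻ z, ‖av δ' (fun x => g (x - c)) z - g z‖ₑ ^ 2 ≤ (9 * (K * ENNReal.ofReal (δ ^ s))) ^ 2 := by
    refine h1.trans ?_
    calc ENNReal.ofReal ((δ' ^ 2)⁻¹) * ∫⁻ u in bq δ', ∫⁻ z, ‖(fun x => g (x - c)) (z - u) - g z‖ₑ ^ 2
        ≤ ENNReal.ofReal ((δ ^ 2)⁻¹) * (K ^ 2 * ENNReal.ofReal ((3 * δ) ^ (2 + 2 * s))) := by
          gcongr
          exact h2.trans h4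
      _ = K ^ 2 * ENNReal.ofReal ((δ ^ 2)⁻¹ * (3 * δ) ^ (2 + 2 * s)) := by
          rw [ENNReal.ofReal_mul (by positivity)]
          ring
      _ ≤ K ^ 2 * ENNReal.ofReal (81 * (δ ^ s) ^ 2) := by
          gcongr (K : ℝ≥0∞) ^ 2 * ENNReal.ofReal ?_
          have e1 : (3 * δ) ^ (2 + 2 * s) = 3 ^ (2 + 2 * s) * (δ ^ 2 * (δ ^ s) ^ 2) := by
            rw [Real.mul_rpow (by norm_num) hδ.le, Real.rpow_add hδ, mul_comm 2 s,
              Real.rpow_mul hδ.le]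
            norm_num
          rw [e1]
          have e2 : (3 : ℝ) ^ (2 + 2 * s) ≤ 81 := by
            calc (3 : ℝ) ^ (2 + 2 * s) ≤ (3 : ℝ) ^ (4 : ℝ) :=
                  Real.rpow_le_rpow_of_exponent_le (by norm_num) (by linarith)
              _ = 81 := by norm_num
          calc (δ ^ 2)⁻¹ * (3 ^ (2 + 2 * s) * (δ ^ 2 * (δ ^ s) ^ 2))
              = 3 ^ (2 + 2 * s) * (δ ^ s) ^ 2 := by field_simp
            _ ≤ 81 * (δ ^ s) ^ 2 := by gcongr
      _ = _ := by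
          rw [mul_pow, mul_pow, ← ENNReal.ofReal_pow (by positivity), ENNReal.ofReal_mul (by norm_num)]
          have : ENNReal.ofReal 81 = 9 ^ 2 := by norm_num
          rw [this]
          ring
  rw [l2_eq]
  calc (∫⁻ z, ‖av δ' (fun x => g (x - c)) z - g z‖ₑ ^ 2) ^ (1 / 2 : ℝ)
      ≤ ((9 * (K * ENNReal.ofReal (δ ^ s))) ^ 2) ^ (1 / 2 : ℝ) := by gcongr
    _ = _ := by
        rw [← ENNReal.rpow_natCast, ← ENNReal.rpow_mul]
        norm_num

lemma av_tr (δ : ℝ) (g : ℝ × ℝ → ℂ) (c z : ℝ × ℝ) : av δ (fun x => g (x - c)) z = av δ g (z - c) := by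
  unfold PT.av
  congr 1
  apply integral_congr_ae
  refine ae_of_all _ fun u => ?_
  simp only
  congr 2
  abel

/-- the increments -/
lemma incr {s : ℝ} (hs0 : 0 ≤ s) (hs1 : s ≤ 1) {K : ℝ≥0} {g : ℝ × ℝ → ℂ} (hg : Bes s K g)
    (hgi : Integrable g) (δ : ℝ) (hδ : 0 < δ) (h3 : 3 * δ ≤ 1) :
    eLpNorm (fun z => av δ g z - mn δ (av (2 * δ) g) z) 2 volume ≤
      18 * (K * ENNReal.ofReal (δ ^ s)) := by
  have hm : ∀ (δ' : ℝ) (c : ℝ × ℝ), AEStronglyMeasurable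
      (fun z => av δ' (fun x => g (x - c)) z - g z) volume := fun δ' c =>
    ((av_meas δ' _ (hg.1.comp (measurable_id.sub measurable_const))).sub hg.1).aestronglyMeasurable
  have a0 := avt hs0 hs1 hg hgi δ δ hδ le_rfl (by linarith) h3 0 (by simpa using hδ.le)
  have b0 := avt hs0 hs1 hg hgi δ (2 * δ) hδ (by linarith) le_rfl h3 0 (by simpa using hδ.le)
  have b1 := avt hs0 hs1 hg hgi δ (2 * δ) hδ (by linarith) le_rfl h3 (δ, 0) (n00 δ hδ.le)
  have b2 := avt hs0 hs1 hg hgi δ (2 * δ) hδ (by linarith) le_rfl h3 (0, δ) (n01 δ hδ.le)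
  have b3 := avt hs0 hs1 hg hgi δ (2 * δ) hδ (by linarith) le_rfl h3 (δ, δ) (n11 δ hδ.le)
  set B := fun c : ℝ × ℝ => fun z => av (2 * δ) (fun x => g (x - c)) z - g z with hB
  have e : (fun z => av δ g z - mn δ (av (2 * δ) g) z) =
      (fun z => av δ (fun x => g (x - 0)) z - g z) -
        (1 / 4 : ℂ) • (B 0 + B (δ, 0) + B (0, δ) + B (δ, δ)) := by
    ext z
    simp only [hB, Pi.sub_apply, Pi.smul_apply, Pi.add_apply, smul_eq_mul, av_tr, sub_zero]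
    unfold PT.mn
    ring
  rw [e]
  have hBm : ∀ c, AEStronglyMeasurable (B c) volume := fun c => hm (2 * δ) c
  refine (eLpNorm_sub_le (hm δ 0) ((((hBm _).add (hBm _)).add (hBm _)).add (hBm _) |>.const_smul _)
    (by norm_num)).trans ?_
  rw [eLpNorm_const_smul]
  have h4 : ‖(1 / 4 : ℂ)‖ₑ = 1 / 4 := by
    rw [← ofReal_norm]
    simp only [norm_div, norm_one]
    rw [show ‖(4 : ℂ)‖ = 4 by simp, ENNReal.ofReal_div_of_pos (by norm_num)]
    norm_num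
  rw [h4]
  have h5 : eLpNorm (B 0 + B (δ, 0) + B (0, δ) + B (δ, δ)) 2 volume ≤
      4 * (9 * (K * ENNReal.ofReal (δ ^ s))) := by
    refine (eLpNorm_add_le (((hBm _).add (hBm _)).add (hBm _)) (hBm _) (by norm_num)).trans ?_
    refine (add_le_add ((eLpNorm_add_le ((hBm _).add (hBm _)) (hBm _) (by norm_num)).trans
      (add_le_add (eLpNorm_add_le (hBm _) (hBm _) (by norm_num)) le_rfl)) le_rfl).trans ?_
    refine (add_le_add (add_le_add (add_le_add b0 b1) b2) b3).trans (le_of_eq ?_)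
    ring
  calc _ ≤ 9 * (K * ENNReal.ofReal (δ ^ s)) + 1 / 4 * (4 * (9 * (K * ENNReal.ofReal (δ ^ s)))) := by
        gcongr
    _ = _ := by
        rw [← mul_assoc (1 / 4 : ℝ≥0∞) 4, one_div, ENNReal.inv_mul_cancel (by norm_num) (by norm_num)]
        ring

end Pool.Agent.Y250.SS
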