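import Pool.Agent.Y250.SS.A3
set_option autoImplicit false

/-! The abstract estimate: telescoping. -/

namespace Pool.Agent.Y250.SS

open MeasureTheory Set Complex Filter Topology
open scoped ENNReal NNReal
open Pool.Agent.Y250.PT (av avs bi bq av_sup av_meas av_bd av_sq bi_bd bi_meas bi_int jens bq_meas
  bq_vol mn mn_meas mn_int av_double bi_mul_int l2_eq av_sub)

variable {b : ℝ} (D : Data b)

/-- the extension operator -/
noncomputable def Data.T (f : ℝ × ℝ → ℂ) (p : ℝ × (ℝ × ℝ)) : ℂ := ∫ z, f z * D.ex p.2 p.1 z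

lemma Data.T_meas (f : ℝ × ℝ → ℂ) (hf : Measurable f) : Measurable (D.T f) := by
  unfold Data.T
  apply StronglyMeasurable.measurable
  apply StronglyMeasurable.integral_prod_right'
    (f := fun w : (ℝ × (ℝ × ℝ)) × (ℝ × ℝ) => f w.2 * D.ex w.1.2 w.1.1 w.2)
  apply Measurable.stronglyMeasurable
  apply (hf.comp measurable_snd).mul
  unfold Data.ex
  have h1 := D.φ_meas
  have h2 := D.η_meas
  fun_prop

lemma Data.T_norm (f : ℝ × ℝ → ℂ) (hf : Measurable f) (q : ℝ) (hq : 0 < q) :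
    eLpNorm (D.T f) (ENNReal.ofReal q) volume =
      (∫⁻ t : ℝ, ∫⁻ y : ℝ × ℝ, ‖∫ z, f z * D.ex y t z‖ₑ ^ q) ^ (1 / q) := by
  rw [eLpNorm_eq_lintegral_rpow_enorm_toReal (by simpa using hq) ENNReal.ofReal_ne_top,
    ENNReal.toReal_ofReal hq.le]
  congr 1
  rw [Measure.volume_eq_prod, lintegral_prod _ ((D.T_meas f hf).enorm.pow_const q).aemeasurable]
  rfl

lemma Data.T_add (g h : ℝ × ℝ → ℂ) (hg : Integrable g) (hh : Integrable h) :
    D.T (fun x => g x + h x) = D.T g + D.T h := by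
  have hi : ∀ (f : ℝ × ℝ → ℂ) (p : ℝ × (ℝ × ℝ)), Integrable f →
      Integrable fun z => f z * D.ex p.2 p.1 z := by
    intro f p hf
    apply hf.mul_bdd (c := 1) (D.ex_meas _ _).aestronglyMeasurable
    exact ae_of_all _ fun z => (D.ex_norm _ _ _).le
  ext p
  unfold Data.T
  simp only [Pi.add_apply]
  rw [← integral_add (hi g p hg) (hi h p hh)]
  congr 1
  ext x
  ring

/-- the pointwise bound -/
lemma Data.T_sup (g h : ℝ × ℝ → ℂ) (hg : Integrable g) (hh : Integrable h) (p : ℝ × (ℝ × ℝ)) :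
    ‖D.T g p - D.T h p‖ₑ ≤ ∫⁻ x, ‖g x - h x‖ₑ := by
  have hi : ∀ (f : ℝ × ℝ → ℂ) (p : ℝ × (ℝ × ℝ)), Integrable f →
      Integrable fun z => f z * D.ex p.2 p.1 z := by
    intro f p hf
    apply hf.mul_bdd (c := 1) (D.ex_meas _ _).aestronglyMeasurable
    exact ae_of_all _ fun z => (D.ex_norm _ _ _).le
  unfold Data.T
  rw [← integral_sub (hi g p hg) (hi h p hh)]
  refine (enorm_integral_le_lintegral_enorm _).trans (le_of_eq ?_)
  apply lintegral_congr
  intro x
  rw [← sub_mul, enorm_mul, ← ofReal_norm (D.ex _ _ _), D.ex_norm]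
  simp

/-- **averages** -/
theorem box_T (q θ : ℝ) (hθ1 : 1 < θ) (hθ2 : θ ≤ q - 2) :
    ∃ C : ℝ≥0, ∀ (b : ℝ≥0) (D : Data b), 1 ≤ b → ∀ δ : ℝ, 0 < δ → ∀ H : ℝ × ℝ → ℂ,
      Integrable H → Measurable H → (∀ x : ℝ × ℝ, x ∉ D.S → av δ H x = 0) →
      eLpNorm (D.T (av δ H)) (ENNReal.ofReal q) volume ≤
        C * b * ENNReal.ofReal (δ ^ (-(θ / q))) * eLpNorm H 2 volume := by
  obtain ⟨C, hC⟩ := box q θ hθ1 hθ2
  have hq0 : 0 < q := by linarith
  have hθq : θ / q ≤ 1 := by rw [div_le_one hq0]; linarith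
  have hθq0 : 0 ≤ θ / q := by positivity
  refine ⟨((C : ℝ≥0∞) ^ (1 / q)).toNNReal, ?_⟩
  have hfin : (C : ℝ≥0∞) ^ (1 / q) ≠ ∞ :=
    ENNReal.rpow_ne_top_of_nonneg (by positivity) ENNReal.coe_ne_top
  rw [ENNReal.coe_toNNReal hfin]
  intro b D hb δ hδ H hH hHm hsup
  have hb1 : (1 : ℝ) ≤ (b : ℝ) := by exact_mod_cast hb
  rw [D.T_norm _ (av_meas δ H hHm) q hq0, l2_eq]
  set K : ℝ≥0∞ := (∫⁻ z, ‖H z‖ₑ ^ 2) ^ (1 / 2 : ℝ) with hK
  have h := hC b D hb1 δ hδ H hH hHm
  have e0 : ∀ (t : ℝ) (y : ℝ × ℝ), ∫ z, av δ H z * D.ex y t z = ∫ z in D.S, av δ H z * D.ex y t z := by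
    intro t y
    rw [← integral_indicator D.S_meas]
    congr 1
    ext z
    by_cases hz : z ∈ D.S
    · rw [indicator_of_mem hz]
    · rw [indicator_of_notMem hz, hsup z hz, zero_mul]
  simp only [e0]
  calc (∫⁻ t : ℝ, ∫⁻ y : ℝ × ℝ, ‖∫ z in D.S, av δ H z * D.ex y t z‖ₑ ^ q) ^ (1 / q)
      ≤ (C * ENNReal.ofReal ((b : ℝ) / δ) ^ θ * K ^ q) ^ (1 / q) := by gcongr
    _ = (C : ℝ≥0∞) ^ (1 / q) * ENNReal.ofReal ((b : ℝ) / δ) ^ (θ / q) * K := by
        rw [ENNReal.mul_rpow_of_nonneg _ _ (by positivity), ENNReal.mul_rpow_of_nonneg _ _ (by positivity),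
          ← ENNReal.rpow_mul, ← ENNReal.rpow_mul, mul_one_div_cancel hq0.ne', ENNReal.rpow_one,
          mul_one_div]
    _ ≤ _ := by
        have e1 : ENNReal.ofReal ((b : ℝ) / δ) ^ (θ / q) ≤ b * ENNReal.ofReal (δ ^ (-(θ / q))) := by
          rw [ENNReal.ofReal_rpow_of_pos (by positivity), ← ENNReal.ofReal_coe_nnreal,
            ← ENNReal.ofReal_mul (by positivity)]
          apply ENNReal.ofReal_le_ofReal
          rw [Real.div_rpow (by positivity) hδ.le, Real.rpow_neg hδ.le, div_eq_mul_inv]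
          gcongr
          calc (b : ℝ) ^ (θ / q) ≤ (b : ℝ) ^ (1 : ℝ) :=
                Real.rpow_le_rpow_of_exponent_le hb1 hθq
            _ = _ := Real.rpow_one _
        calc (C : ℝ≥0∞) ^ (1 / q) * ENNReal.ofReal ((b : ℝ) / δ) ^ (θ / q) * K
            ≤ (C : ℝ≥0∞) ^ (1 / q) * (b * ENNReal.ofReal (δ ^ (-(θ / q)))) * K := by gcongr
          _ = _ := by ring

/-- **the abstract estimate** -/
theorem ab : S_AB := by
  intro q s hq hs hs1
  have hq0 : 0 < q := by linarith
  have hs0 : 0 < s := lt_trans (by positivity) hs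
  have hqs : 1 < q * s := by
    rw [div_lt_iff₀ hq0] at hs
    linarith
  set θ : ℝ := min (q - 2) ((1 + q * s) / 2) with hθ
  have hθ1 : 1 < θ := lt_min (by linarith) (by linarith)
  have hθ2 : θ ≤ q - 2 := min_le_left _ _
  have hθ3 : θ / q < s := by
    rw [div_lt_iff₀ hq0]
    have : θ ≤ (1 + q * s) / 2 := min_le_right _ _
    linarith
  set ρ : ℝ := s - θ / q with hρ
  have hρ0 : 0 < ρ := by linarith
  have hθq0 : 0 ≤ θ / q := by positivity
  have hθq1 : θ / q ≤ 1 := by rw [div_le_one hq0]; linarith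
  obtain ⟨C, hC⟩ := box_T q θ hθ1 hθ2
  -- the series
  set a : ℕ → ℝ≥0∞ := fun i => ENNReal.ofReal (((1 / 2 : ℝ) ^ (i + 1)) ^ ρ) with ha
  have hsum : ∑' i, a i ≠ ∞ := by
    have e1 : ∀ i : ℕ, a i = ENNReal.ofReal ((1 / 2 : ℝ) ^ ρ) * ENNReal.ofReal ((1 / 2 : ℝ) ^ ρ) ^ i := by
      intro i
      simp only [ha]
      rw [← ENNReal.ofReal_pow (by positivity), ← ENNReal.ofReal_mul (by positivity), ← pow_succ',
        ← Real.rpow_natCast, ← Real.rpow_mul (by norm_num), ← Real.rpow_natCast, ← Real.rpow_mul (by norm_num),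
        mul_comm ρ]
    simp only [e1]
    rw [ENNReal.tsum_mul_left, ENNReal.tsum_geometric]
    apply ENNReal.mul_ne_top ENNReal.ofReal_ne_top
    rw [ne_eq, ENNReal.inv_eq_top, tsub_eq_zero_iff_le, not_le, ← ENNReal.ofReal_one]
    apply (ENNReal.ofReal_lt_ofReal_iff (by norm_num)).mpr
    exact Real.rpow_lt_one (by norm_num) (by norm_num) hρ0
  refine ⟨C * (8 + 18 * ∑' i, a i).toNNReal, ?_⟩
  have hfin : (8 + 18 * ∑' i, a i) ≠ ∞ :=
    ENNReal.add_ne_top.mpr ⟨by norm_num, ENNReal.mul_ne_top (by norm_num) hsum⟩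
  rw [ENNReal.coe_mul, ENNReal.coe_toNNReal hfin]
  intro b D r g K hb hr hr1 hg hsup
  have hgs : D.Sq r g := hsup
  have hgi : Integrable g := int_of hg.1 hr.le hgs
    (hg.2.1.trans_lt (ENNReal.pow_lt_top ENNReal.coe_lt_top)).ne
  rw [← D.T_norm g hg.1 q hq0]
  set d : ℕ → ℝ := fun n => r / 8 * (1 / 2 : ℝ) ^ n with hd
  have hd0 : ∀ n, 0 < d n := fun n => by simp only [hd]; positivity
  have hd1 : ∀ n, d n ≤ r / 8 := fun n => by
    simp only [hd]
    have : (1 / 2 : ℝ) ^ n ≤ 1 := pow_le_one₀ (by norm_num) (by norm_num)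
    nlinarith
  have hd2 : ∀ n, 2 * d (n + 1) = d n := fun n => by
    simp only [hd]
    rw [pow_succ (1 / 2 : ℝ) n]
    ring
  have hd3 : ∀ n, d n ≤ (1 / 2 : ℝ) ^ (n + 1) := fun n => by
    simp only [hd]
    rw [pow_succ]
    have : (0 : ℝ) < (1 / 2) ^ n := by positivity
    nlinarith
  have l2K : eLpNorm g 2 volume ≤ K := by
    rw [l2_eq]
    calc (∫⁻ z, ‖g z‖ₑ ^ 2) ^ (1 / 2 : ℝ) ≤ ((K : ℝ≥0∞) ^ 2) ^ (1 / 2 : ℝ) :=
          ENNReal.rpow_le_rpow hg.2.1 (by norm_num)
      _ = K := by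
          rw [← ENNReal.rpow_natCast, ← ENNReal.rpow_mul]
          norm_num
  have hav2 : ∀ (δ : ℝ) (_ : 0 < δ) (f : ℝ × ℝ → ℂ), Measurable f →
      eLpNorm (av δ f) 2 volume ≤ eLpNorm f 2 volume := by
    intro δ hδ f hf
    rw [l2_eq, l2_eq]
    exact ENNReal.rpow_le_rpow (av_sq δ hδ f hf) (by norm_num)
  -- the approximations
  have hfm : ∀ n, Measurable (av (d n) g) := fun n => av_meas _ _ hg.1
  have hfs : ∀ n, D.Sq (r - d n) (av (d n) g) := fun n => Sq_av hgs
  have hfi : ∀ n, Integrable (av (d n) g) := by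
    intro n
    apply int_of (hfm n) (by linarith [hd1 n]) (hfs n)
    have := (av_sq (d n) (hd0 n) g hg.1).trans hg.2.1
    exact (this.trans_lt (ENNReal.pow_lt_top ENNReal.coe_lt_top)).ne
  set G : ℕ → ℝ × ℝ → ℂ := fun n => av (d n) (av (d n) g) with hG
  have hGm : ∀ n, Measurable (G n) := fun n => av_meas _ _ (hfm n)
  have hGs : ∀ n, D.Sq (r - d n - d n) (G n) := fun n => Sq_av (hfs n)
  have hGi : ∀ n, Integrable (G n) := by
    intro n
    apply int_of (hGm n) (by linarith [hd1 n]) (hGs n)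
    have := (av_sq (d n) (hd0 n) _ (hfm n)).trans ((av_sq (d n) (hd0 n) g hg.1).trans hg.2.1)
    exact (this.trans_lt (ENNReal.pow_lt_top ENNReal.coe_lt_top)).ne
  have hTm : ∀ f : ℝ × ℝ → ℂ, Measurable f → AEStronglyMeasurable (D.T f) volume := fun f hf =>
    (D.T_meas f hf).aestronglyMeasurable
  -- the bound
  have hbound : ∀ n, eLpNorm (D.T (G n)) (ENNReal.ofReal q) volume ≤
      C * b * K * (ENNReal.ofReal (8 / r) + 18 * ∑ i ∈ Finset.range n, a (i + 1)) := by
    intro n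
    induction n with
    | zero =>
      have h1 := hC b D hb (d 0) (hd0 0) (av (d 0) g) (hfi 0) (hfm 0)
        (fun x hx => Sq_supp (hGs 0) (by linarith [hd1 0]) x hx)
      rw [Finset.sum_range_zero, mul_zero, add_zero]
      refine h1.trans ?_
      have h2 : ENNReal.ofReal ((d 0) ^ (-(θ / q))) ≤ ENNReal.ofReal (8 / r) := by
        apply ENNReal.ofReal_le_ofReal
        simp only [hd]
        rw [pow_zero, mul_one, Real.rpow_neg (by positivity), ← Real.inv_rpow (by positivity), inv_div]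
        have h8 : 1 ≤ 8 / r := by
          rw [le_div_iff₀ hr]
          linarith
        calc (8 / r : ℝ) ^ (θ / q) ≤ (8 / r : ℝ) ^ (1 : ℝ) := Real.rpow_le_rpow_of_exponent_le h8 hθq1
          _ = _ := Real.rpow_one _
      calc (C : ℝ≥0∞) * b * ENNReal.ofReal ((d 0) ^ (-(θ / q))) * eLpNorm (av (d 0) g) 2 volume
          ≤ (C : ℝ≥0∞) * b * ENNReal.ofReal (8 / r) * K := by
            gcongr
            exact (hav2 _ (hd0 0) g hg.1).trans l2K
        _ = _ := by ring
    | succ n ih =>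
      set H : ℝ × ℝ → ℂ := fun x => av (d (n + 1)) g x - mn (d (n + 1)) (av (d n) g) x with hH
      have hmi := mn_int (d (n + 1)) (av (d n) g) (hfi n)
      have hHi : Integrable H := (hfi (n + 1)).sub hmi
      have hHm : Measurable H := (hfm (n + 1)).sub (mn_meas _ _ (hfm n))
      have hHs : D.Sq (r - d n - d (n + 1)) H := by
        intro z z' h1 h2
        have a1 := (Sq_mono (hfs (n + 1)) (show r - d n - d (n + 1) ≤ r - d (n + 1) by
          linarith [hd0 n])) z z' h1 h2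
        have a2 := (Sq_mn (hd0 (n + 1)).le (hfs n)) z z' h1 h2
        simp only [hH]
        rw [a1, a2, sub_zero]
      have e1 : G (n + 1) = fun x => G n x + av (d (n + 1)) H x := by
        ext x
        have h5 := av_double (d (n + 1)) (hd0 (n + 1)) (av (d n) g) (hfi n) x
        rw [hd2 n] at h5
        rw [hH, av_sub _ _ _ (hfi (n + 1)) hmi, ← h5]
        simp only [hG]
        ring
      have hsq : D.Sq (r - d n - d (n + 1) - d (n + 1)) (av (d (n + 1)) H) := Sq_av hHs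
      have hle : 0 ≤ r - d n - d (n + 1) - d (n + 1) := by
        linarith [hd1 n, hd1 (n + 1)]
      have h3d : 3 * d (n + 1) ≤ 1 := by linarith [hd1 (n + 1)]
      have h2 : eLpNorm H 2 volume ≤ 18 * (K * ENNReal.ofReal ((d (n + 1)) ^ s)) := by
        have h5 := incr hs0.le hs1 hg hgi (d (n + 1)) (hd0 _) h3d
        rw [hd2 n] at h5
        exact h5
      have hHa : Integrable (av (d (n + 1)) H) := by
        apply int_of (av_meas _ _ hHm) hle hsq
        have h6 := av_sq (d (n + 1)) (hd0 (n + 1)) H hHm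
        rw [l2_eq] at h2
        refine (h6.trans_lt ?_).ne
        have h7 : (∫⁻ z, ‖H z‖ₑ ^ 2) ^ (1 / 2 : ℝ) < ∞ := h2.trans_lt
          (ENNReal.mul_lt_top (by norm_num) (ENNReal.mul_lt_top ENNReal.coe_lt_top ENNReal.ofReal_lt_top))
        exact (ENNReal.rpow_lt_top_iff_of_pos (by norm_num)).mp h7
      have h1 := hC b D hb (d (n + 1)) (hd0 _) H hHi hHm (fun x hx => Sq_supp hsq hle x hx)
      have h3 : eLpNorm (D.T (av (d (n + 1)) H)) (ENNReal.ofReal q) volume ≤
          C * b * K * (18 * a (n + 1)) := by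
        refine h1.trans ?_
        calc (C : ℝ≥0∞) * b * ENNReal.ofReal ((d (n + 1)) ^ (-(θ / q))) * eLpNorm H 2 volume
            ≤ (C : ℝ≥0∞) * b * ENNReal.ofReal ((d (n + 1)) ^ (-(θ / q))) *
              (18 * (K * ENNReal.ofReal ((d (n + 1)) ^ s))) := by gcongr
          _ = (C : ℝ≥0∞) * b * K * (18 * (ENNReal.ofReal ((d (n + 1)) ^ (-(θ / q))) *
              ENNReal.ofReal ((d (n + 1)) ^ s))) := by ring
          _ ≤ _ := by
              gcongr
              rw [← ENNReal.ofReal_mul (Real.rpow_nonneg (hd0 _).le _), ← Real.rpow_add (hd0 _)]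
              simp only [ha]
              apply ENNReal.ofReal_le_ofReal
              have e3 : -(θ / q) + s = ρ := by rw [hρ]; ring
              rw [e3]
              exact Real.rpow_le_rpow (hd0 _).le (hd3 (n + 1)) hρ0.le
      have e2 : D.T (G (n + 1)) = D.T (G n) + D.T (av (d (n + 1)) H) := by
        rw [e1]
        exact D.T_add _ _ (hGi n) hHa
      rw [e2]
      refine (eLpNorm_add_le (hTm _ (hGm n)) (hTm _ (av_meas _ _ hHm)) (by
        rw [← ENNReal.ofReal_one]
        exact ENNReal.ofReal_le_ofReal (by linarith))).trans ?_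
      refine (add_le_add ih h3).trans (le_of_eq ?_)
      rw [Finset.sum_range_succ]
      ring
  -- the limit
  have hclose : ∀ n, eLpNorm (fun z => G n z - g z) 2 volume ≤ 18 * (K * ENNReal.ofReal ((d n) ^ s)) := by
    intro n
    have h3d : 3 * d n ≤ 1 := by linarith [hd1 n]
    have h0 := avt hs0.le hs1 hg hgi (d n) (d n) (hd0 n) le_rfl (by linarith [hd0 n]) h3d 0
      (by simpa using (hd0 n).le)
    simp only [sub_zero] at h0
    have e : (fun z => G n z - g z) = (av (d n) fun x => av (d n) g x - g x) +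
        fun z => av (d n) g z - g z := by
      ext z
      rw [Pi.add_apply, av_sub _ _ _ (hfi n) hgi]
      simp only [hG]
      ring
    rw [e]
    have hm1 : Measurable fun x => av (d n) g x - g x := (hfm n).sub hg.1
    refine (eLpNorm_add_le (av_meas _ _ hm1).aestronglyMeasurable hm1.aestronglyMeasurable
      (by norm_num)).trans ?_
    have h1 : eLpNorm (av (d n) fun x => av (d n) g x - g x) 2 volume ≤
        9 * (K * ENNReal.ofReal ((d n) ^ s)) := (hav2 _ (hd0 n) _ hm1).trans h0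
    refine (add_le_add h1 h0).trans (le_of_eq ?_)
    ring
  have hlim : ∀ p, Tendsto (fun n => D.T (G n) p) atTop (𝓝 (D.T g p)) := by
    intro p
    rw [tendsto_iff_edist_tendsto_0]
    have hz : Tendsto (fun n => 2 * (18 * ((K : ℝ≥0∞) * ENNReal.ofReal ((d n) ^ s)))) atTop (𝓝 0) := by
      have h1 : Tendsto (fun n => (d n) ^ s) atTop (𝓝 0) := by
        have h2 : Tendsto d atTop (𝓝 0) := by
          have h7 := (tendsto_pow_atTop_nhds_zero_of_lt_one (by norm_num : (0 : ℝ) ≤ 1 / 2)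
            (by norm_num)).const_mul (r / 8)
          rw [mul_zero] at h7
          exact h7
        have h3 := h2.rpow_const (p := s) (Or.inr hs0.le)
        rwa [Real.zero_rpow hs0.ne'] at h3
      have h4 : Tendsto (fun n => ENNReal.ofReal ((d n) ^ s)) atTop (𝓝 0) := by
        have := ENNReal.tendsto_ofReal h1
        rwa [ENNReal.ofReal_zero] at this
      have h5 := ENNReal.Tendsto.const_mul h4 (Or.inr (ENNReal.mul_ne_top (by norm_num : (36 : ℝ≥0∞) ≠ ∞)
        (ENNReal.coe_ne_top (r := K))))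
      rw [mul_zero] at h5
      refine h5.congr fun n => ?_
      ring
    refine tendsto_of_tendsto_of_tendsto_of_le_of_le tendsto_const_nhds hz (fun n => zero_le) (fun n => ?_)
    simp only
    rw [edist_eq_enorm_sub]
    have h1 := D.T_sup (G n) g (hGi n) hgi p
    refine h1.trans ?_
    have hs2 : D.Sq (r - d n - d n) fun z => G n z - g z := by
      intro z z' h1 h2
      have a1 := hGs n z z' h1 h2
      have a2 := (Sq_mono hgs (show r - d n - d n ≤ r by linarith [hd0 n])) z z' h1 h2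
      simp only
      rw [a1, a2, sub_zero]
    refine (l1_l2 ((hGm n).sub hg.1) (by linarith [hd1 n]) hs2).trans ?_
    have h9 := hclose n
    rw [l2_eq] at h9
    gcongr
    exact h9
  have hfat := Lp.eLpNorm_lim_le_liminf_eLpNorm (p := ENNReal.ofReal q) (μ := volume)
    (fun n => hTm _ (hGm n)) (D.T g) (ae_of_all _ hlim)
  refine hfat.trans ?_
  have h1r : (1 : ℝ≥0∞) ≤ ENNReal.ofReal (1 / r) := by
    rw [← ENNReal.ofReal_one]
    apply ENNReal.ofReal_le_ofReal
    rw [le_div_iff₀ hr]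
    linarith
  have hall : ∀ n, eLpNorm (D.T (G n)) (ENNReal.ofReal q) volume ≤
      C * (8 + 18 * ∑' i, a i) * b * K * ENNReal.ofReal (1 / r) := by
    intro n
    refine (hbound n).trans ?_
    have h1 : ∑ i ∈ Finset.range n, a (i + 1) ≤ ∑' i, a i := by
      have h2 : ∑ i ∈ Finset.range n, a (i + 1) ≤ ∑ i ∈ Finset.range (n + 1), a i := by
        rw [Finset.sum_range_succ']
        exact le_self_add
      exact h2.trans (ENNReal.sum_le_tsum _)
    have e8 : ENNReal.ofReal (8 / r) = 8 * ENNReal.ofReal (1 / r) := by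
      rw [show (8 : ℝ) / r = 8 * (1 / r) by ring, ENNReal.ofReal_mul (by norm_num)]
      norm_num
    have h10 : 18 * ∑ i ∈ Finset.range n, a (i + 1) ≤ 18 * (∑' i, a i) * ENNReal.ofReal (1 / r) := by
      calc 18 * ∑ i ∈ Finset.range n, a (i + 1) = 18 * (∑ i ∈ Finset.range n, a (i + 1)) * 1 := by
            rw [mul_one]
        _ ≤ 18 * (∑' i, a i) * ENNReal.ofReal (1 / r) := by gcongr
    calc (C : ℝ≥0∞) * b * K * (ENNReal.ofReal (8 / r) + 18 * ∑ i ∈ Finset.range n, a (i + 1))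
        ≤ (C : ℝ≥0∞) * b * K * (8 * ENNReal.ofReal (1 / r) + 18 * (∑' i, a i) * ENNReal.ofReal (1 / r)) := by
          rw [e8]
          exact mul_le_mul' le_rfl (add_le_add le_rfl h10)
      _ = _ := by ring
  exact (liminf_le_liminf (Eventually.of_forall hall)).trans (by simp)

end Pool.Agent.Y250.SS
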