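import Pool.Agent.Y250.SS.A4
set_option autoImplicit false

/-! The data of a polynomial on a small cap. -/

namespace Pool.Agent.Y250.SS

open MeasureTheory Set Complex Filter Topology
open scoped ENNReal NNReal

lemma hh_cont : Continuous hh := by unfold hh; fun_prop

lemma ev3_cont (P : Poly3) : Continuous fun x : ℝ × ℝ => ev3 P x.1 x.2 (-hh x) := by
  unfold ev3
  apply (MvPolynomial.continuous_eval P).comp
  apply continuous_pi
  intro i
  have := hh_cont
  fin_cases i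
  · exact continuous_fst
  · exact continuous_snd
  · exact this.neg

lemma ph_cont (P : Poly3) : Continuous (ph P) := ev3_cont P

lemma G11_meas : Measurable G11 := by
  unfold G11
  have := hh_cont.measurable
  fun_prop
lemma G12_meas : Measurable G12 := by
  unfold G12
  have := hh_cont.measurable
  fun_prop
lemma G22_meas : Measurable G22 := by
  unfold G22
  have := hh_cont.measurable
  fun_prop

lemma H11_meas (P : Poly3) : Measurable (H11 P) := by
  unfold H11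
  have h0 := hh_cont.measurable
  have h1 := fun P => (ev3_cont P).measurable
  have h2 := G11_meas
  exact (((h1 _).add (((measurable_fst.div h0).const_mul 2).mul (h1 _))).add
    (((measurable_fst.div h0).pow_const 2).mul (h1 _))).add (h2.mul (h1 _))
lemma H12_meas (P : Poly3) : Measurable (H12 P) := by
  unfold H12
  have h0 := hh_cont.measurable
  have h1 := fun P => (ev3_cont P).measurable
  have h2 := G12_meas
  exact ((((h1 _).add ((measurable_snd.div h0).mul (h1 _))).add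
    ((measurable_fst.div h0).mul (h1 _))).add
    (((measurable_fst.div h0).mul (measurable_snd.div h0)).mul (h1 _))).add (h2.mul (h1 _))
lemma H22_meas (P : Poly3) : Measurable (H22 P) := by
  unfold H22
  have h0 := hh_cont.measurable
  have h1 := fun P => (ev3_cont P).measurable
  have h2 := G22_meas
  exact (((h1 _).add (((measurable_snd.div h0).const_mul 2).mul (h1 _))).add
    (((measurable_snd.div h0).pow_const 2).mul (h1 _))).add (h2.mul (h1 _))

lemma CD_meas {α : Type*} [MeasurableSpace α] (s : ℝ) (a b c e f g : α → ℝ) (ha : Measurable a)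
    (hb : Measurable b) (hc : Measurable c) (he : Measurable e) (hf : Measurable f)
    (hg : Measurable g) : MeasurableSet {x | CD s (a x) (b x) (c x) (e x) (f x) (g x)} := by
  have e : {x | CD s (a x) (b x) (c x) (e x) (f x) (g x)} =
      {x | 0 < (g x * a x - 2 * f x * b x + e x * c x) ^ 2 -
        2 * (e x * g x - f x ^ 2) * (a x * c x - b x ^ 2) - 2 * s ^ 2 * (e x * g x - f x ^ 2) ^ 2} ∩
      {x | 0 < ((a x * c x - b x ^ 2) + s ^ 2 * (e x * g x - f x ^ 2)) ^ 2 -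
        s ^ 2 * (g x * a x - 2 * f x * b x + e x * c x) ^ 2} := rfl
  rw [e]
  apply MeasurableSet.inter
  · apply measurableSet_lt measurable_const
    fun_prop
  · apply measurableSet_lt measurable_const
    fun_prop

/-- the open unit disc -/
def dsc : Set (ℝ × ℝ) := {x | x.1 ^ 2 + x.2 ^ 2 < 1}

lemma dsc_meas : MeasurableSet dsc := by
  unfold dsc
  exact (isOpen_lt (by fun_prop) continuous_const).measurableSet

/-- the regions -/
def BR (P : Poly3) (k : ℕ) (t : ℝ) : Set (ℝ × ℝ) := RG (tw P 0 t) (2 ^ k) ∩ dsc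

lemma RG_tw (hTW : S_TW) (P : Poly3) (y : ℝ × ℝ) (t s : ℝ) : RG (tw P y t) s =
    {x | CD s (H11 P x - 2 * Real.pi * t * G11 x) (H12 P x - 2 * Real.pi * t * G12 x)
      (H22 P x - 2 * Real.pi * t * G22 x) (G11 x) (G12 x) (G22 x)} := by
  obtain ⟨-, -, h1, h2, h3⟩ := hTW P y t
  unfold RG
  simp only [h1, h2, h3]

lemma BR_joint (hTW : S_TW) (P : Poly3) (k : ℕ) :
    MeasurableSet {v : ℝ × (ℝ × ℝ) | v.2 ∈ BR P k v.1} := by
  have e : {v : ℝ × (ℝ × ℝ) | v.2 ∈ BR P k v.1} =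
      {v : ℝ × (ℝ × ℝ) | CD (2 ^ k) (H11 P v.2 - 2 * Real.pi * v.1 * G11 v.2)
        (H12 P v.2 - 2 * Real.pi * v.1 * G12 v.2) (H22 P v.2 - 2 * Real.pi * v.1 * G22 v.2)
        (G11 v.2) (G12 v.2) (G22 v.2)} ∩ Prod.snd ⁻¹' dsc := by
    ext v
    have e0 := RG_tw hTW P 0 v.1 (2 ^ k)
    show v.2 ∈ RG (tw P 0 v.1) (2 ^ k) ∩ dsc ↔ _
    rw [e0]
    rfl
  rw [e]
  have h1 : Measurable fun v : ℝ × (ℝ × ℝ) => H11 P v.2 := (H11_meas P).comp measurable_snd
  have h2 : Measurable fun v : ℝ × (ℝ × ℝ) => H12 P v.2 := (H12_meas P).comp measurable_snd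
  have h3 : Measurable fun v : ℝ × (ℝ × ℝ) => H22 P v.2 := (H22_meas P).comp measurable_snd
  have g1 : Measurable fun v : ℝ × (ℝ × ℝ) => G11 v.2 := G11_meas.comp measurable_snd
  have g2 : Measurable fun v : ℝ × (ℝ × ℝ) => G12 v.2 := G12_meas.comp measurable_snd
  have g3 : Measurable fun v : ℝ × (ℝ × ℝ) => G22 v.2 := G22_meas.comp measurable_snd
  have ht : Measurable fun v : ℝ × (ℝ × ℝ) => 2 * Real.pi * v.1 := by fun_prop
  apply MeasurableSet.inter _ (measurable_snd dsc_meas)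
  exact CD_meas _ _ _ _ _ _ _ (h1.sub (ht.mul g1)) (h2.sub (ht.mul g2)) (h3.sub (ht.mul g3)) g1 g2 g3

lemma hh_low (x : ℝ × ℝ) (hx : x.1 ^ 2 + x.2 ^ 2 < 2 / 3) : 1 / 2 ≤ hh x := by
  unfold hh
  apply Real.le_sqrt_of_sq_le
  norm_num
  linarith

/-- continuity on the compact disc -/
lemma cpt_bdd (F : ℝ × ℝ → ℝ) (hF : ContinuousOn F {x | x.1 ^ 2 + x.2 ^ 2 ≤ 2 / 3}) :
    ∃ M : ℝ, ∀ x : ℝ × ℝ, x.1 ^ 2 + x.2 ^ 2 < 2 / 3 → F x ≤ M := by
  have hc : IsCompact {x : ℝ × ℝ | x.1 ^ 2 + x.2 ^ 2 ≤ 2 / 3} := by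
    apply IsCompact.of_isClosed_subset (isCompact_closedBall (0 : ℝ × ℝ) 1)
    · exact isClosed_le (by fun_prop) continuous_const
    · intro x hx
      have hx' : x.1 ^ 2 + x.2 ^ 2 ≤ 2 / 3 := hx
      rw [Metric.mem_closedBall, dist_zero_right, Prod.norm_def]
      apply max_le
      · exact abs_le_of_sq_le_sq (by nlinarith [sq_nonneg x.2]) (by norm_num)
      · exact abs_le_of_sq_le_sq (by nlinarith [sq_nonneg x.1]) (by norm_num)
  obtain ⟨M, hM⟩ := (hc.image_of_continuousOn hF).bddAbove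
  exact ⟨M, fun x hx => hM (mem_image_of_mem F (show x ∈ {x : ℝ × ℝ | _} from hx.le))⟩

lemma vol_abs2 (c s : ℝ) (hs : 0 < s) : volume {t : ℝ | |2 * Real.pi * t - c| ≤ s} ≤
    ENNReal.ofReal (s / 2) := by
  have hpi := Real.pi_gt_three
  have hsub : {t : ℝ | |2 * Real.pi * t - c| ≤ s} ⊆
      Icc ((c - s) / (2 * Real.pi)) ((c + s) / (2 * Real.pi)) := by
    intro t ht
    simp only [mem_ofPred_eq, abs_le] at ht
    constructor
    · rw [div_le_iff₀ (by positivity)]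
      linarith [ht.1]
    · rw [le_div_iff₀ (by positivity)]
      linarith [ht.2]
  refine (measure_mono hsub).trans ?_
  rw [Real.volume_Icc]
  apply ENNReal.ofReal_le_ofReal
  have e : (c + s) / (2 * Real.pi) - (c - s) / (2 * Real.pi) = s / Real.pi := by
    field_simp
    ring
  rw [e, div_le_div_iff₀ (by positivity) (by norm_num)]
  nlinarith

/-- **the data** -/
theorem data (hXF : S_XF) (hGE : S_GE) (hTM : S_TM) (hAN : S_AN) (hLG : S_LG) (hTW : S_TW) (C : ℝ)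
    (hC : ∀ (n : ℕ) (P : Poly3) (j : ℕ) (s' : ℝ), 1 ≤ n → P.totalDegree ≤ n →
      ‖∫ x in S n, (RG P (2 ^ j) \ RG P s').indicator (fun x => cexp ((ph P x : ℂ) * I)) x‖ ≤
        C * n ^ 5 * (1 + j) / 2 ^ j) (n : ℕ) (hn : 1 ≤ n) (P : Poly3) (hP : P.totalDegree ≤ n) :
    ∃ D : Data (C * n ^ 5), D.S = S n ∧ D.φ = ph P ∧ D.η = hh := by
  have hS := hXF.2.2.2.2.1 n hn
  have hsub : S n ⊆ dsc := fun x hx => by
    have := hS x hx
    show x.1 ^ 2 + x.2 ^ 2 < 1
    linarith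
  refine ⟨⟨S n, ph P, hh, BR P, hXF.2.2.2.2.2 n hn, ?_, (ph_cont P).measurable, hh_cont.measurable,
    BR_joint hTW P, ?_, ?_, ?_, ?_⟩, rfl, rfl, rfl⟩
  · -- the domain is in the square
    intro x hx
    have h1 := hS x hx
    have h2 : |x.1| ≤ 1 := abs_le_of_sq_le_sq (by nlinarith [sq_nonneg x.2]) (by norm_num)
    have h3 : |x.2| ≤ 1 := abs_le_of_sq_le_sq (by nlinarith [sq_nonneg x.1]) (by norm_num)
    rw [abs_le] at h2 h3
    exact ⟨⟨h2.1, h2.2⟩, ⟨h3.1, h3.2⟩⟩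
  · -- monotonicity
    rintro k t x ⟨h1, h2⟩
    exact ⟨hAN _ _ _ _ _ _ _ _ (by positivity) (pow_le_pow_right₀ (by norm_num) (by omega))
      (hGE x h2) h1, h2⟩
  · -- large parameters
    intro t
    set F : ℝ × ℝ → ℝ := fun x =>
      (G22 x * H11 (tw P 0 t) x - 2 * G12 x * H12 (tw P 0 t) x + G11 x * H22 (tw P 0 t) x) ^ 2 -
        2 * (G11 x * G22 x - G12 x ^ 2) * (H11 (tw P 0 t) x * H22 (tw P 0 t) x -
          H12 (tw P 0 t) x ^ 2) with hF
    have hFc : ContinuousOn F {x | x.1 ^ 2 + x.2 ^ 2 ≤ 2 / 3} := by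
      have hne : ∀ x ∈ {x : ℝ × ℝ | x.1 ^ 2 + x.2 ^ 2 ≤ 2 / 3}, hh x ≠ 0 := by
        intro x hx
        have hx' : x.1 ^ 2 + x.2 ^ 2 ≤ 2 / 3 := hx
        have : 0 < hh x := Real.sqrt_pos.mpr (by linarith)
        exact this.ne'
      have hne3 : ∀ x ∈ {x : ℝ × ℝ | x.1 ^ 2 + x.2 ^ 2 ≤ 2 / 3}, hh x ^ 3 ≠ 0 := fun x hx =>
        pow_ne_zero 3 (hne x hx)
      have c0 : ContinuousOn hh {x : ℝ × ℝ | x.1 ^ 2 + x.2 ^ 2 ≤ 2 / 3} := hh_cont.continuousOn
      have cf : ContinuousOn (fun x : ℝ × ℝ => x.1) {x : ℝ × ℝ | x.1 ^ 2 + x.2 ^ 2 ≤ 2 / 3} :=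
        continuous_fst.continuousOn
      have cs : ContinuousOn (fun x : ℝ × ℝ => x.2) {x : ℝ × ℝ | x.1 ^ 2 + x.2 ^ 2 ≤ 2 / 3} :=
        continuous_snd.continuousOn
      have c1 := fun P : Poly3 => (ev3_cont P).continuousOn (s := {x : ℝ × ℝ | x.1 ^ 2 + x.2 ^ 2 ≤ 2 / 3})
      have g1 : ContinuousOn G11 {x : ℝ × ℝ | x.1 ^ 2 + x.2 ^ 2 ≤ 2 / 3} := by
        unfold G11
        exact (continuousOn_const.div c0 hne).add ((cf.pow 2).div (c0.pow 3) hne3)
      have g2 : ContinuousOn G12 {x : ℝ × ℝ | x.1 ^ 2 + x.2 ^ 2 ≤ 2 / 3} := by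
        unfold G12
        exact (cf.mul cs).div (c0.pow 3) hne3
      have g3 : ContinuousOn G22 {x : ℝ × ℝ | x.1 ^ 2 + x.2 ^ 2 ≤ 2 / 3} := by
        unfold G22
        exact (continuousOn_const.div c0 hne).add ((cs.pow 2).div (c0.pow 3) hne3)
      have df := cf.div c0 hne
      have ds := cs.div c0 hne
      have k1 : ContinuousOn (H11 (tw P 0 t)) {x : ℝ × ℝ | x.1 ^ 2 + x.2 ^ 2 ≤ 2 / 3} := by
        unfold H11
        exact (((c1 _).add ((continuousOn_const.mul df).mul (c1 _))).add ((df.pow 2).mul (c1 _))).add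
          (g1.mul (c1 _))
      have k2 : ContinuousOn (H12 (tw P 0 t)) {x : ℝ × ℝ | x.1 ^ 2 + x.2 ^ 2 ≤ 2 / 3} := by
        unfold H12
        exact ((((c1 _).add (ds.mul (c1 _))).add (df.mul (c1 _))).add ((df.mul ds).mul (c1 _))).add
          (g2.mul (c1 _))
      have k3 : ContinuousOn (H22 (tw P 0 t)) {x : ℝ × ℝ | x.1 ^ 2 + x.2 ^ 2 ≤ 2 / 3} := by
        unfold H22
        exact (((c1 _).add ((continuousOn_const.mul ds).mul (c1 _))).add ((ds.pow 2).mul (c1 _))).add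
          (g3.mul (c1 _))
      simp only [hF]
      exact ((((g3.mul k1).sub ((continuousOn_const.mul g2).mul k2)).add (g1.mul k3)).pow 2).sub
        ((continuousOn_const.mul ((g1.mul g3).sub (g2.pow 2))).mul ((k1.mul k3).sub (k2.pow 2)))
    obtain ⟨M, hM⟩ := cpt_bdd F hFc
    obtain ⟨J, hJ⟩ := pow_unbounded_of_one_lt M (show (1 : ℝ) < 2 by norm_num)
    refine ⟨J, fun x hx hxB => ?_⟩
    have h1 := hM x (hS x hx)
    have h2 := hLG _ _ _ _ _ _ _ (by positivity) (hGE x (hsub hx)) hxB.1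
    have h3 : (1 : ℝ) ≤ 2 ^ J := one_le_pow₀ (by norm_num)
    have h4 : ((2 : ℝ) ^ J) ^ 2 ≤ F x := h2
    nlinarith
  · -- time
    intro k x hx
    obtain ⟨t₁, t₂, ht⟩ := hTM (H11 P x) (H12 P x) (H22 P x) (G11 x) (G12 x) (G22 x) (hGE x (hsub hx))
    have h2k : (0 : ℝ) < 2 ^ k := by positivity
    have hss : {t : ℝ | x ∉ BR P k t} ⊆ {t : ℝ | |2 * Real.pi * t - t₁| ≤ 2 ^ k} ∪
        {t : ℝ | |2 * Real.pi * t - t₂| ≤ 2 ^ k} := by
      intro t htx
      by_contra hc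
      simp only [mem_union, mem_ofPred_eq, not_or, not_le] at hc
      apply htx
      refine ⟨?_, hsub hx⟩
      rw [RG_tw hTW]
      exact ht (2 ^ k) (2 * Real.pi * t) h2k hc.1 hc.2
    refine (measure_mono hss).trans ((measure_union_le _ _).trans ?_)
    refine (add_le_add (vol_abs2 _ _ h2k) (vol_abs2 _ _ h2k)).trans (le_of_eq ?_)
    rw [← ENNReal.ofReal_add (by positivity) (by positivity)]
    congr 1
    ring
  · -- the sup bound
    intro k y t
    have h1 := hC n (tw P y t) k (2 ^ (k + 1)) hn ((hTW P y t).1 n hn hP)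
    refine le_trans (le_of_eq ?_) h1
    congr 1
    apply setIntegral_congr_fun (hXF.2.2.2.2.2 n hn)
    intro x hx
    have e1 : ∀ j : ℕ, x ∈ BR P j t ↔ x ∈ RG (tw P y t) (2 ^ j) := by
      intro j
      unfold BR
      rw [RG_tw hTW, RG_tw hTW]
      exact ⟨fun h => h.1, fun h => ⟨h, hsub hx⟩⟩
    have e2 : x ∈ BR P k t \ BR P (k + 1) t ↔
        x ∈ RG (tw P y t) (2 ^ k) \ RG (tw P y t) (2 ^ (k + 1)) := by
      rw [Set.mem_sdiff, Set.mem_sdiff, e1, e1]
    by_cases h : x ∈ BR P k t \ BR P (k + 1) t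
    · rw [indicator_of_mem h, indicator_of_mem (e2.mp h), (hTW P y t).2.1 x]
    · rw [indicator_of_notMem h, indicator_of_notMem (fun h' => h (e2.mpr h'))]

end Pool.Agent.Y250.SS
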