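import Pool.Agent.Y250.SS.Stm
set_option autoImplicit false

/-! Project SS, part 2: definitions and statements on the sphere. -/

namespace Pool.Agent.Y250.SS

open MeasureTheory Set Complex Filter Topology
open scoped ENNReal NNReal RealInnerProductSpace
open Pool.Agent.Helper793.Nir (E3 S2 sig rot)

/-- the south pole -/
noncomputable def so : E3 := !₂[0, 0, -1]

/-- value of a polynomial at a point of the space -/
noncomputable def evE (P : Poly3) (x : E3) : ℝ := MvPolynomial.eval (fun i => x i) P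

/-- the Fourier transform of the measure `g dσ` -/
noncomputable def ft (g : S2 → ℂ) (ξ : E3) : ℂ :=
  ∫ x, cexp (-(2 * Real.pi * ⟪(x : E3), ξ⟫ : ℝ) * I) * g x ∂sig

/-- the Besov class `B^s_{2,∞}` of the sphere -/
def BesS (s : ℝ) (K : ℝ≥0) (g : S2 → ℂ) : Prop := Measurable g ∧ ∫⁻ x, ‖g x‖ₑ ^ 2 ∂sig ≤ K ^ 2 ∧
  ∀ δ : ℝ, 0 < δ → δ ≤ 1 →
    ∫⁻ x, (∫⁻ y in {y : S2 | ‖(y : E3) - (x : E3)‖ ≤ δ}, ‖g y - g x‖ₑ ^ 2 ∂sig) ∂sig ≤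
      K ^ 2 * ENNReal.ofReal (δ ^ (2 + 2 * s))

/-- extension by zero to the space -/
noncomputable def ext0 (g : S2 → ℂ) : E3 → ℂ := Function.extend ((↑) : S2 → E3) g 0

/-- the density in graph coordinates -/
noncomputable def Gc (g : S2 → ℂ) : ℝ × ℝ → ℂ :=
  (S 1).indicator fun z => ((1 / hh z : ℝ) : ℂ) * ext0 g (Lo z)

/-- **transfer of the Besov class to graph coordinates** -/
def S_BT : Prop := ∀ (s : ℝ) (K : ℝ≥0) (g : S2 → ℂ), 0 ≤ s → s ≤ 1 → BesS s K g →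
  (∀ x : S2, g x ≠ 0 → ‖(x : E3) - so‖ ≤ 1 / 8) → Bes s (100 * K) (Gc g)

/-- the estimate for small caps around the point `c` -/
def Cap (q s : ℝ) (C : ℝ≥0) (c : E3) : Prop := ∀ (n : ℕ) (P : Poly3) (g : S2 → ℂ) (K : ℝ≥0), 1 ≤ n →
  P.totalDegree ≤ n → BesS s K g →
  (∀ x : S2, g x ≠ 0 → ‖(x : E3) - c‖ ≤ 1 / (8 * √(n : ℝ))) →
  eLpNorm (ft fun x => cexp ((evE P x : ℂ) * I) * g x) (ENNReal.ofReal q) volume ≤
    C * ((n : ℝ≥0) ^ 6 * K : ℝ≥0)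

/-- **rotation** -/
def S_RO : Prop := ∀ (q s : ℝ) (C : ℝ≥0), 0 < q → Cap q s C so → ∀ c : S2, Cap q s C (c : E3)

/-- **area of caps** -/
def S_CA : Prop := ∀ (x : S2) (δ : ℝ), 0 < δ →
  sig {y : S2 | ‖(y : E3) - (x : E3)‖ ≤ δ} ≤ ENNReal.ofReal (100 * δ ^ 2)

/-- functions on the sphere with good local approximation by polynomials of degree `n` -/
def Sm (n : ℕ) (M : ℝ) (φ : S2 → ℝ) : Prop := ∀ c : S2, ∃ P : Poly3, P.totalDegree ≤ n ∧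
  ∀ (r : ℝ) (x y : S2), ‖(x : E3) - (c : E3)‖ ≤ r → ‖(y : E3) - (c : E3)‖ ≤ r →
    |(φ x - evE P x) - (φ y - evE P y)| ≤ M * r ^ n * ‖(x : E3) - (y : E3)‖

/-- **partition into caps** -/
def S_CE : Prop := ∀ (q s : ℝ) (C : ℝ≥0), 3 < q → 0 < s → s ≤ 1 →
  (∀ c : S2, Cap q s C (c : E3)) → ∃ C' : ℝ≥0, ∀ (n : ℕ) (M : ℝ≥0) (φ : S2 → ℝ), 1 ≤ n →
    Measurable φ → Sm n M φ → ∀ (g : S2 → ℂ) (K : ℝ≥0), BesS s K g →
    eLpNorm (ft fun x => cexp ((φ x : ℂ) * I) * g x) (ENNReal.ofReal q) volume ≤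
      C' * ((n : ℝ≥0) ^ 8 * (1 + M) ^ (4 / ((n : ℝ) + 1)) * K : ℝ≥0)

/-- **smooth functions** -/
def S_TY : Prop := ∀ (n : ℕ) (φ : E3 → ℝ) (M : ℝ), 1 ≤ n → ContDiff ℝ (n + 1 : ℕ) φ →
  (∀ x : E3, ‖x‖ ≤ 1 → ‖iteratedFDeriv ℝ (n + 1) φ x‖ ≤ M) →
  Sm n (M / (n - 1).factorial) fun x : S2 => φ x

end Pool.Agent.Y250.SS
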