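import Pool.Agent.Y250.SS.Part1
import Pool.Agent.Y250.SS.Stm2
set_option autoImplicit false

/-! The estimate for small caps around the south pole. -/

namespace Pool.Agent.Y250.SS

open MeasureTheory Set Complex Filter Topology
open scoped ENNReal NNReal RealInnerProductSpace
open Pool.Agent.Helper793.Nir (E3 S2 sig rot)

lemma evE_Lo (P : Poly3) (z : ℝ × ℝ) : evE P (Lo z) = ph P z := by
  unfold evE ph ev3
  have e : (fun i => (Lo z) i) = ![z.1, z.2, -hh z] := by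
    funext i
    fin_cases i <;> simp [Lo]
  rw [e]

lemma ext0_meas (g : S2 → ℂ) (hg : Measurable g) : Measurable (ext0 g) := by
  unfold ext0
  exact (MeasurableEmbedding.subtype_coe (Metric.isClosed_sphere.measurableSet)).measurable_extend hg
    measurable_const

lemma ext0_eq (g : S2 → ℂ) (x : S2) : ext0 g (x : E3) = g x := by
  unfold ext0
  exact Subtype.val_injective.extend_apply g 0 x

lemma ext0_out (g : S2 → ℂ) (x : E3) (hx : ‖x‖ ≠ 1) : ext0 g x = 0 := by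
  unfold ext0
  rw [Function.extend_apply']
  · rfl
  · rintro ⟨y, rfl⟩
    apply hx
    have := y.2
    rw [mem_sphere_zero_iff_norm] at this
    exact this

lemma evE_meas (P : Poly3) : Measurable (evE P) := by
  unfold evE
  exact ((MvPolynomial.continuous_eval P).comp (by fun_prop)).measurable

lemma Lo_meas : Measurable Lo := by
  have : Continuous Lo := by
    unfold Lo
    have := hh_cont
    fun_prop
  exact this.measurable

lemma norm_sub_so (x : E3) : ‖x - so‖ ^ 2 = x 0 ^ 2 + x 1 ^ 2 + (x 2 + 1) ^ 2 := by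
  rw [EuclideanSpace.norm_sq_eq, Fin.sum_univ_three]
  simp [so]

lemma near_pole (x : E3) (ρ : ℝ) (hρ : 0 ≤ ρ) (hx : ‖x - so‖ ≤ ρ) :
    x 0 ^ 2 + x 1 ^ 2 ≤ ρ ^ 2 ∧ x 2 ≤ -1 + ρ := by
  have h1 := norm_sub_so x
  have h2 : ‖x - so‖ ^ 2 ≤ ρ ^ 2 := by
    gcongr
  constructor
  · nlinarith [sq_nonneg (x 2 + 1)]
  · have h3 : (x 2 + 1) ^ 2 ≤ ρ ^ 2 := by nlinarith [sq_nonneg (x 0), sq_nonneg (x 1)]
    have := abs_le_of_sq_le_sq h3 hρ
    have := (abs_le.mp this).2
    linarith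

/-- the coordinates of the dual space -/
noncomputable def Th (ξ : E3) : ℝ × (ℝ × ℝ) := (ξ 2, (-ξ 0, -ξ 1))

lemma Th_mp : MeasurePreserving Th volume volume := by
  have h0 : MeasurePreserving (fun ξ : E3 => (fun i => ξ i : Fin 3 → ℝ)) volume volume :=
    EuclideanSpace.volume_preserving_symm_measurableEquiv_toLp (Fin 3)
  have h1 := volume_preserving_piFinSuccAbove (fun _ : Fin 3 => ℝ) 2
  have h2 := volume_preserving_finTwoArrow ℝ
  have h3 : MeasurePreserving (fun z : ℝ × ℝ => -z) volume volume :=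
    Measure.measurePreserving_neg volume
  have h4 := (MeasurePreserving.id (volume : Measure ℝ)).prod (h3.comp h2)
  have h5 := (h4.comp h1).comp h0
  have e : Th = (Prod.map id ((fun z : ℝ × ℝ => -z) ∘ ⇑MeasurableEquiv.finTwoArrow) ∘
      ⇑(MeasurableEquiv.piFinSuccAbove (fun _ : Fin 3 => ℝ) 2)) ∘
      (fun ξ : E3 => (fun i => ξ i : Fin 3 → ℝ)) := by
    funext ξ
    rfl
  rw [e]
  exact h5

/-- the extension operator of the sphere in graph coordinates -/
lemma ft_T {b : ℝ} (D : Data b) (P : Poly3) (hφ : D.φ = ph P) (hη : D.η = hh) (g : S2 → ℂ)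
    (hg : Measurable g) (hsup : ∀ x : S2, g x ≠ 0 → ‖(x : E3) - so‖ ≤ 1 / 8) (ξ : E3) :
    ft (fun x => cexp ((evE P x : ℂ) * I) * g x) ξ = D.T (Gc g) (Th ξ) := by
  set F : E3 → ℂ := fun x => cexp (-(2 * Real.pi * ⟪x, ξ⟫ : ℝ) * I) *
    (cexp ((evE P x : ℂ) * I) * ext0 g x) with hF
  have hFm : Measurable F := by
    have h1 := evE_meas P
    have h2 := ext0_meas g hg
    simp only [hF]
    apply Measurable.mul
    · fun_prop
    · exact (by fun_prop : Measurable fun x : E3 => cexp ((evE P x : ℂ) * I)).mul h2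
  have h1 := hSC 1 F le_rfl hFm
  unfold ft
  have hset : MeasurableSet {x : S2 | (x : E3) 2 < 0 ∧ ((x : E3) 0, (x : E3) 1) ∈ S 1} := by
    have a1 : MeasurableSet {x : S2 | (x : E3) 2 < 0} := by
      apply measurableSet_lt
      · have : Continuous fun x : S2 => (x : E3) 2 := by fun_prop
        exact this.measurable
      · exact measurable_const
    have a2 : MeasurableSet {x : S2 | ((x : E3) 0, (x : E3) 1) ∈ S 1} := by
      have : Continuous fun x : S2 => ((x : E3) 0, (x : E3) 1) := by fun_prop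
      exact this.measurable (hXF.2.2.2.2.2 1 le_rfl)
    exact a1.inter a2
  have e1 : ∫ x : S2, cexp (-(2 * Real.pi * ⟪(x : E3), ξ⟫ : ℝ) * I) *
      (cexp ((evE P x : ℂ) * I) * g x) ∂sig =
      ∫ x in {x : S2 | (x : E3) 2 < 0 ∧ ((x : E3) 0, (x : E3) 1) ∈ S 1}, F x ∂sig := by
    rw [← integral_indicator hset]
    congr 1
    ext x
    by_cases hx : x ∈ {x : S2 | (x : E3) 2 < 0 ∧ ((x : E3) 0, (x : E3) 1) ∈ S 1}
    · rw [indicator_of_mem hx]
      simp only [hF]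
      rw [ext0_eq]
    · rw [indicator_of_notMem hx]
      have h0 : g x = 0 := by
        by_contra hne
        apply hx
        obtain ⟨h2, h3⟩ := near_pole x (1 / 8) (by norm_num) (hsup x hne)
        refine ⟨by linarith, ?_⟩
        apply hXF.2.2.2.1 1 le_rfl
        show (x : E3) 0 ^ 2 + (x : E3) 1 ^ 2 < 1 / (6 * (1 : ℕ))
        norm_num
        linarith
      rw [h0, mul_zero, mul_zero]
  rw [e1, h1, ← integral_indicator (hXF.2.2.2.2.2 1 le_rfl)]
  unfold Data.T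
  congr 1
  ext z
  unfold Gc
  by_cases hz : z ∈ S 1
  · rw [indicator_of_mem hz, indicator_of_mem hz]
    simp only [hF]
    rw [evE_Lo]
    have e2 : ⟪Lo z, ξ⟫ = z.1 * ξ 0 + z.2 * ξ 1 - hh z * ξ 2 := by
      rw [PiLp.inner_apply, Fin.sum_univ_three]
      simp [Lo]
      ring
    rw [e2]
    have e3 : cexp (-(2 * Real.pi * (z.1 * ξ 0 + z.2 * ξ 1 - hh z * ξ 2) : ℝ) * I) *
        cexp ((ph P z : ℂ) * I) = D.ex (Th ξ).2 (Th ξ).1 z := by
      unfold Data.ex
      rw [← Complex.exp_add, hφ, hη]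
      congr 1
      simp only [Th]
      push_cast
      ring
    rw [← e3]
    ring
  · rw [indicator_of_notMem hz, indicator_of_notMem hz, zero_mul]

/-- **the estimate for small caps around the south pole** -/
theorem cap0 (hBT : S_BT) (q s : ℝ) (hq : 3 < q) (hs : 1 / q < s) (hs1 : s ≤ 1) :
    ∃ C : ℝ≥0, Cap q s C so := by
  obtain ⟨C0, hC0, hX⟩ := hSX
  obtain ⟨C1, hC1⟩ := ab q s hq hs hs1
  have hq0 : 0 < q := by linarith
  have hs0 : 0 < s := lt_trans (by positivity) hs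
  set C2 : ℝ := max C0 1 with hC2
  have hC21 : 1 ≤ C2 := le_max_right _ _
  refine ⟨C1 * C2.toNNReal * 800, ?_⟩
  intro n P g K hn hP hg hsup
  have hn1 : (1 : ℝ) ≤ n := by exact_mod_cast hn
  have hX' : ∀ (n : ℕ) (P : Poly3) (j : ℕ) (s' : ℝ), 1 ≤ n → P.totalDegree ≤ n →
      ‖∫ x in S n, (RG P (2 ^ j) \ RG P s').indicator (fun x => cexp ((ph P x : ℂ) * I)) x‖ ≤
        C2 * n ^ 5 * (1 + j) / 2 ^ j := by
    intro n P j s' h1 h2
    refine (hX n P j s' h1 h2).trans ?_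
    gcongr
    exact le_max_left _ _
  obtain ⟨D, hDS, hDφ, hDη⟩ := data hXF hGE hTM hAN hLG hTW C2 hX' n hn P hP
  set b : ℝ≥0 := ⟨C2 * n ^ 5, by positivity⟩ with hb
  have hbe : (b : ℝ) = C2 * n ^ 5 := rfl
  have hb1 : 1 ≤ b := by
    have : (1 : ℝ) ≤ (b : ℝ) := by
      rw [hbe]
      have : (1 : ℝ) ≤ (n : ℝ) ^ 5 := one_le_pow₀ hn1
      nlinarith
    exact_mod_cast this
  have hsn : 1 ≤ √(n : ℝ) := by
    rw [Real.one_le_sqrt]
    exact hn1
  have hsn0 : 0 < √(n : ℝ) := by linarith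
  set r : ℝ := 1 / (8 * √(n : ℝ)) with hr
  have hr0 : 0 < r := by positivity
  have hr8 : r ≤ 1 / 8 := by
    rw [hr]
    apply one_div_le_one_div_of_le (by norm_num)
    linarith
  have hrn : r ^ 2 = 1 / (64 * n) := by
    rw [hr, div_pow, mul_pow, Real.sq_sqrt (by linarith)]
    norm_num
  have hsup8 : ∀ x : S2, g x ≠ 0 → ‖(x : E3) - so‖ ≤ 1 / 8 := fun x hx => (hsup x hx).trans hr8
  have hG := hBT s K g hs0.le hs1 hg hsup8
  have hsup2 : ∀ z z' : ℝ × ℝ, ‖z - z'‖ ≤ r → z' ∉ D.S → Gc g z = 0 := by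
    intro z z' h1 h2
    by_contra hne
    apply h2
    rw [hDS]
    apply hXF.2.2.2.1 n hn
    unfold Gc at hne
    by_cases hz : z ∈ S 1
    swap
    · exact absurd (indicator_of_notMem hz _) hne
    rw [indicator_of_mem hz] at hne
    have h3 : ext0 g (Lo z) ≠ 0 := right_ne_zero_of_mul hne
    have h4 : ‖Lo z‖ = 1 := by
      by_contra hc
      exact h3 (ext0_out g _ hc)
    have h5 : g ⟨Lo z, by rw [mem_sphere_zero_iff_norm]; exact h4⟩ ≠ 0 := by
      have := ext0_eq g ⟨Lo z, by rw [mem_sphere_zero_iff_norm]; exact h4⟩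
      rw [← this]
      exact h3
    have h6 := (near_pole _ r hr0.le (hsup _ h5)).1
    have h7 : z.1 ^ 2 + z.2 ^ 2 ≤ r ^ 2 := by
      have e1 : (Lo z) 0 = z.1 := by simp [Lo]
      have e2 : (Lo z) 1 = z.2 := by simp [Lo]
      simp only [e1, e2] at h6
      exact h6
    -- the distance
    have h8 : |z.1 - z'.1| ≤ r := (norm_fst_le (z - z')).trans h1
    have h9 : |z.2 - z'.2| ≤ r := (norm_snd_le (z - z')).trans h1
    show z'.1 ^ 2 + z'.2 ^ 2 < 1 / (6 * n)
    have h10 : (z.1 - z'.1) ^ 2 ≤ r ^ 2 := by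
      rw [← sq_abs]
      gcongr
    have h11 : (z.2 - z'.2) ^ 2 ≤ r ^ 2 := by
      rw [← sq_abs]
      gcongr
    have h12 : z'.1 ^ 2 + z'.2 ^ 2 ≤ 6 * r ^ 2 + 1 * r ^ 2 := by
      nlinarith [sq_nonneg (2 * (z.1 - z'.1) + z.1), sq_nonneg (2 * (z.2 - z'.2) + z.2),
        sq_nonneg (z.1 - 2 * z'.1), sq_nonneg (z.2 - 2 * z'.2), sq_nonneg (z.1 + (z.1 - z'.1)),
        sq_nonneg (z.2 + (z.2 - z'.2))]
    rw [hrn] at h12
    have h13 : 6 * (1 / (64 * (n : ℝ))) + 1 * (1 / (64 * n)) < 1 / (6 * n) := by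
      rw [← add_mul]
      rw [mul_one_div, div_lt_div_iff₀ (by positivity) (by positivity)]
      nlinarith
    linarith
  have hfin := hC1 b D r (Gc g) (100 * K) hb1 hr0 (by linarith) hG hsup2
  have hGm : Measurable (Gc g) := hG.1
  have e1 : (ft fun x => cexp ((evE P x : ℂ) * I) * g x) = D.T (Gc g) ∘ Th := by
    funext ξ
    exact ft_T D P hDφ hDη g hg.1 hsup8 ξ
  rw [e1, eLpNorm_comp_measurePreserving (D.T_meas _ hGm).aestronglyMeasurable Th_mp,
    D.T_norm _ hGm q hq0]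
  refine hfin.trans ?_
  have e2 : ENNReal.ofReal (1 / r) = ENNReal.ofReal (8 * √(n : ℝ)) := by
    rw [hr, one_div_one_div]
  rw [e2]
  have e3 : ENNReal.ofReal (8 * √(n : ℝ)) ≤ 8 * (n : ℝ≥0∞) := by
    rw [ENNReal.ofReal_mul (by norm_num)]
    have : ENNReal.ofReal (√(n : ℝ)) ≤ n := by
      rw [← ENNReal.ofReal_natCast]
      apply ENNReal.ofReal_le_ofReal
      rw [Real.sqrt_le_left (by linarith)]
      nlinarith
    have h8 : ENNReal.ofReal 8 = 8 := by norm_num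
    rw [h8]
    gcongr
  have e4 : (b : ℝ≥0∞) = (C2.toNNReal : ℝ≥0∞) * (n : ℝ≥0∞) ^ 5 := by
    rw [← ENNReal.ofReal_coe_nnreal, hbe, ENNReal.ofReal_mul (by linarith),
      ENNReal.ofReal_pow (by linarith), ENNReal.ofReal_natCast]
    rfl
  rw [e4]
  push_cast
  calc (C1 : ℝ≥0∞) * ((C2.toNNReal : ℝ≥0∞) * (n : ℝ≥0∞) ^ 5) * (100 * K) * ENNReal.ofReal (8 * √(n : ℝ))
      ≤ (C1 : ℝ≥0∞) * ((C2.toNNReal : ℝ≥0∞) * (n : ℝ≥0∞) ^ 5) * (100 * K) * (8 * (n : ℝ≥0∞)) := by
        gcongr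
    _ = _ := by ring

end Pool.Agent.Y250.SS
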