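import Pool.Agent.Y250.SS.A6
import Pool.Agent.Y250.SS.A8
set_option autoImplicit false

/-! The estimate for caps at the south pole, with the sharp regularity. -/

namespace Pool.Agent.Y250.SS

open MeasureTheory Set Complex Filter Topology
open scoped ENNReal NNReal RealInnerProductSpace
open Pool.Agent.Helper793.Nir (E3 S2 sig rot)

/-- **caps at the south pole** -/
theorem cap1 (hBT : S_BT) (hTG : S_TG) (q s : ℝ) (hq : 3 < q) (hs0 : 0 < s) (hs : 4 / q - 1 < s)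
    (hs1 : s ≤ 1) : ∃ C : ℝ≥0, Cap q s C so := by
  obtain ⟨C0, hC0, hX⟩ := hSX
  have hTG' : ∀ P : ℝ, ∃ C : ℝ≥0, 4 < P → ∀ (n : ℕ) (Q : Poly3) (b : ℝ) (D : Data b), 1 ≤ n →
      D.S = S n → D.φ = ph Q → D.η = hh → TSD D P C := by
    intro P
    by_cases hP : 4 < P
    · obtain ⟨C, hC⟩ := hTG P hP
      exact ⟨C, fun _ => hC⟩
    · exact ⟨0, fun h => absurd h hP⟩
  choose CT hCT using hTG'
  obtain ⟨C1, hC1⟩ := ab2 q s hq hs0 hs hs1 CT
  have hq0 : 0 < q := by linarith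
  set C2 : ℝ := max C0 1 with hC2
  have hC21 : 1 ≤ C2 := le_max_right _ _
  refine ⟨C1 * C2.toNNReal * 800, ?_⟩
  intro n P g K hn hP hg hsup
  have hn1 : (1 : ℝ) ≤ n := by exact_mod_cast hn
  have hX' : ∀ (n : ℕ) (P : Poly3) (j : ℕ) (s' : ℝ), 1 ≤ n → P.totalDegree ≤ n →
      ‖∫ x in S n, (RG P (2 ^ j) \ RG P s').indicator (fun x => cexp ((ph P x : ℂ) * I)) x‖ ≤
        C2 * n ^ 5 * (1 + j) / 2 ^ j := by
    intro n P j s' h1 h2
    refine (hX n P j s' h1 h2).trans ?_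
    gcongr
    exact le_max_left _ _
  obtain ⟨D, hDS, hDφ, hDη⟩ := data hXF hGE hTM hAN hLG hTW C2 hX' n hn P hP
  set b : ℝ≥0 := ⟨C2 * n ^ 5, by positivity⟩ with hb
  have hbe : (b : ℝ) = C2 * n ^ 5 := rfl
  have hb1 : 1 ≤ b := by
    have : (1 : ℝ) ≤ (b : ℝ) := by
      rw [hbe]
      have : (1 : ℝ) ≤ (n : ℝ) ^ 5 := one_le_pow₀ hn1
      nlinarith
    exact_mod_cast this
  have hsn : 1 ≤ √(n : ℝ) := by
    rw [Real.one_le_sqrt]
    exact hn1
  have hsn0 : 0 < √(n : ℝ) := by linarith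
  set r : ℝ := 1 / (8 * √(n : ℝ)) with hr
  have hr0 : 0 < r := by positivity
  have hr8 : r ≤ 1 / 8 := by
    rw [hr]
    apply one_div_le_one_div_of_le (by norm_num)
    linarith
  have hrn : r ^ 2 = 1 / (64 * n) := by
    rw [hr, div_pow, mul_pow, Real.sq_sqrt (by linarith)]
    norm_num
  have hsup8 : ∀ x : S2, g x ≠ 0 → ‖(x : E3) - so‖ ≤ 1 / 8 := fun x hx => (hsup x hx).trans hr8
  have hG := hBT s K g hs0.le hs1 hg hsup8
  have hsup2 : ∀ z z' : ℝ × ℝ, ‖z - z'‖ ≤ r → z' ∉ D.S → Gc g z = 0 := by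
    intro z z' h1 h2
    by_contra hne
    apply h2
    rw [hDS]
    apply hXF.2.2.2.1 n hn
    unfold Gc at hne
    by_cases hz : z ∈ S 1
    swap
    · exact absurd (indicator_of_notMem hz _) hne
    rw [indicator_of_mem hz] at hne
    have h3 : ext0 g (Lo z) ≠ 0 := right_ne_zero_of_mul hne
    have h4 : ‖Lo z‖ = 1 := by
      by_contra hc
      exact h3 (ext0_out g _ hc)
    have h5 : g ⟨Lo z, by rw [mem_sphere_zero_iff_norm]; exact h4⟩ ≠ 0 := by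
      have := ext0_eq g ⟨Lo z, by rw [mem_sphere_zero_iff_norm]; exact h4⟩
      rw [← this]
      exact h3
    have h6 := (near_pole _ r hr0.le (hsup _ h5)).1
    have h7 : z.1 ^ 2 + z.2 ^ 2 ≤ r ^ 2 := by
      have e1 : (Lo z) 0 = z.1 := by simp [Lo]
      have e2 : (Lo z) 1 = z.2 := by simp [Lo]
      simp only [e1, e2] at h6
      exact h6
    -- the distance
    have h8 : |z.1 - z'.1| ≤ r := (norm_fst_le (z - z')).trans h1
    have h9 : |z.2 - z'.2| ≤ r := (norm_snd_le (z - z')).trans h1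
    show z'.1 ^ 2 + z'.2 ^ 2 < 1 / (6 * n)
    have h10 : (z.1 - z'.1) ^ 2 ≤ r ^ 2 := by
      rw [← sq_abs]
      gcongr
    have h11 : (z.2 - z'.2) ^ 2 ≤ r ^ 2 := by
      rw [← sq_abs]
      gcongr
    have h12 : z'.1 ^ 2 + z'.2 ^ 2 ≤ 6 * r ^ 2 + 1 * r ^ 2 := by
      nlinarith [sq_nonneg (2 * (z.1 - z'.1) + z.1), sq_nonneg (2 * (z.2 - z'.2) + z.2),
        sq_nonneg (z.1 - 2 * z'.1), sq_nonneg (z.2 - 2 * z'.2), sq_nonneg (z.1 + (z.1 - z'.1)),
        sq_nonneg (z.2 + (z.2 - z'.2))]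
    rw [hrn] at h12
    have h13 : 6 * (1 / (64 * (n : ℝ))) + 1 * (1 / (64 * n)) < 1 / (6 * n) := by
      rw [← add_mul]
      rw [mul_one_div, div_lt_div_iff₀ (by positivity) (by positivity)]
      nlinarith
    linarith
  have hfin := hC1 b D r (Gc g) (100 * K) hb1
    (fun P' hP' => hCT P' hP' n P _ D hn hDS hDφ hDη) hr0 (by linarith) hG hsup2
  have hGm : Measurable (Gc g) := hG.1
  have e1 : (ft fun x => cexp ((evE P x : ℂ) * I) * g x) = D.T (Gc g) ∘ Th := by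
    funext ξ
    exact ft_T D P hDφ hDη g hg.1 hsup8 ξ
  rw [e1, eLpNorm_comp_measurePreserving (D.T_meas _ hGm).aestronglyMeasurable Th_mp]
  refine hfin.trans ?_
  have e2 : ENNReal.ofReal (1 / r) = ENNReal.ofReal (8 * √(n : ℝ)) := by
    rw [hr, one_div_one_div]
  rw [e2]
  have e3 : ENNReal.ofReal (8 * √(n : ℝ)) ≤ 8 * (n : ℝ≥0∞) := by
    rw [ENNReal.ofReal_mul (by norm_num)]
    have : ENNReal.ofReal (√(n : ℝ)) ≤ n := by
      rw [← ENNReal.ofReal_natCast]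
      apply ENNReal.ofReal_le_ofReal
      rw [Real.sqrt_le_left (by linarith)]
      nlinarith
    have h8 : ENNReal.ofReal 8 = 8 := by norm_num
    rw [h8]
    gcongr
  have e4 : (b : ℝ≥0∞) = (C2.toNNReal : ℝ≥0∞) * (n : ℝ≥0∞) ^ 5 := by
    rw [← ENNReal.ofReal_coe_nnreal, hbe, ENNReal.ofReal_mul (by linarith),
      ENNReal.ofReal_pow (by linarith), ENNReal.ofReal_natCast]
    rfl
  rw [e4]
  push_cast
  calc (C1 : ℝ≥0∞) * ((C2.toNNReal : ℝ≥0∞) * (n : ℝ≥0∞) ^ 5) * (100 * K) * ENNReal.ofReal (8 * √(n : ℝ))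
      ≤ (C1 : ℝ≥0∞) * ((C2.toNNReal : ℝ≥0∞) * (n : ℝ≥0∞) ^ 5) * (100 * K) * (8 * (n : ℝ≥0∞)) := by
        gcongr
    _ = _ := by ring

end Pool.Agent.Y250.SS
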