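import Pool.Agent.Y250.SS.Fin
import Pool.Agent.Y250.SS.A9
import Pool.Agent.Y258.SS.TG
import Pool.Agent.Y438.SS.Ts
set_option autoImplicit false

/-! The final theorem with the sharp regularity. -/

namespace Pool.Agent.Y250.SS

open MeasureTheory Set Complex Filter Topology
open scoped ENNReal NNReal RealInnerProductSpace
open Pool.Agent.Helper793.Nir (E3 S2 sig rot)

theorem hTS : S_TS := Pool.Agent.Y438.SS.ts
theorem hTG : S_TG := Pool.Agent.Y258.SSTG.tg hTS hSC hSG hXF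

/-- phases with good local approximation by polynomials -/
theorem mainSm2 (q s : ℝ) (hq : 3 < q) (hs0 : 0 < s) (hs : 4 / q - 1 < s) (hs1 : s ≤ 1) :
    ∃ C' : ℝ≥0, ∀ (n : ℕ) (M : ℝ≥0) (φ : S2 → ℝ), 1 ≤ n →
    Measurable φ → Sm n M φ → ∀ (g : S2 → ℂ) (K : ℝ≥0), BesS s K g →
    eLpNorm (ft fun x => cexp ((φ x : ℂ) * I) * g x) (ENNReal.ofReal q) volume ≤
      C' * ((n : ℝ≥0) ^ 8 * (1 + M) ^ (4 / ((n : ℝ) + 1)) * K : ℝ≥0) := by
  obtain ⟨C, hC⟩ := cap1 hBT hTG q s hq hs0 hs hs1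
  exact hCE q s C hq hs0 hs1 (hRO q s C (by linarith) hC)

/-- smooth phases -/
theorem smooth2 (q s : ℝ) (hq : 3 < q) (hs0 : 0 < s) (hs : 4 / q - 1 < s) (hs1 : s ≤ 1) :
    ∃ C : ℝ≥0, ∀ (k : ℕ) (φ : E3 → ℝ) (M K : ℝ≥0) (g : S2 → ℂ), 2 ≤ k →
      ContDiff ℝ k φ → (∀ x : E3, ‖x‖ ≤ 1 → ‖iteratedFDeriv ℝ k φ x‖ ≤ M) → BesS s K g →
      eLpNorm (ft fun x => cexp ((φ x : ℂ) * I) * g x) (ENNReal.ofReal q) volume ≤
        C * ((k : ℝ≥0) ^ 8 * (1 + M / ((k - 2).factorial : ℝ≥0)) ^ (4 / (k : ℝ)) * K : ℝ≥0) := by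
  obtain ⟨C, hC⟩ := mainSm2 q s hq hs0 hs hs1
  refine ⟨C, ?_⟩
  intro k φ M K g hk hφ hM hg
  obtain ⟨n, rfl⟩ : ∃ n, k = n + 1 := ⟨k - 1, by omega⟩
  have hn : 1 ≤ n := by omega
  have e1 : n + 1 - 2 = n - 1 := by omega
  have hSm := hTY n φ M hn hφ hM
  have hφm : Measurable fun x : S2 => φ x := (hφ.continuous.comp continuous_subtype_val).measurable
  have hSm' : Sm n ((M / ((n - 1).factorial : ℝ≥0) : ℝ≥0) : ℝ) fun x : S2 => φ x := by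
    have e2 : (((M / ((n - 1).factorial : ℝ≥0) : ℝ≥0)) : ℝ) = (M : ℝ) / ((n - 1).factorial : ℝ) := by
      push_cast
      rfl
    rw [e2]
    exact hSm
  have h := hC n (M / ((n - 1).factorial : ℝ≥0)) (fun x : S2 => φ x) hn hφm hSm' g K hg
  refine h.trans ?_
  rw [e1]
  have e3 : ((n + 1 : ℕ) : ℝ) = (n : ℝ) + 1 := by push_cast; ring
  rw [e3]
  gcongr
  omega

end Pool.Agent.Y250.SS
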