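import Pool.Agent.Y250.SS.A5
import Pool.Agent.Y988.SS.La
import Pool.Agent.Z864.SS.Gr
import Pool.Agent.Y971.SS.X
import Pool.Agent.Y275.SS.Pol
import Pool.Agent.Y158.SS.Ex
import Pool.Agent.Y739.SS.SH
import Pool.Agent.Y279.SS.SU
import Pool.Agent.Y614.SS.Sg
set_option autoImplicit false

/-! Collection of the results of part 1. -/

namespace Pool.Agent.Y250.SS

theorem hND : S_ND := Pool.Agent.Y988.SS.nd
theorem hTM : S_TM := Pool.Agent.Y988.SS.tm
theorem hAN : S_AN := Pool.Agent.Y988.SS.an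
theorem hLG : S_LG := Pool.Agent.Y988.SS.lg
theorem hGE : S_GE := Pool.Agent.Y988.SS.ge
theorem hGR : S_GR := Pool.Agent.Z864.SS.gr
theorem hTW : S_TW := Pool.Agent.Z864.SS.twp
theorem hXD : S_XD := Pool.Agent.Y971.SS.xd
theorem hXF : S_XF := Pool.Agent.Y971.SS.xf
theorem hCV : S_CV := Pool.Agent.Y971.SS.cv
theorem hCL : S_CL := Pool.Agent.Y971.SS.cl
theorem hHT : S_HT := Pool.Agent.Y275.SS.ht
theorem hGP : S_GP := Pool.Agent.Y275.SS.gp hXF
theorem hRP : S_RP := Pool.Agent.Y275.SS.rp hXF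
theorem hEX : S_EX := Pool.Agent.Y158.SS.ex hND hGR hXD hXF hGP hRP
theorem hSH : S_SH := Pool.Agent.Y739.SS.sh hGR hXD hXF hHT hRP hEX
theorem hSU : S_SU := Pool.Agent.Y279.SS.su hSH
theorem hSX : S_SX := Pool.Agent.Y279.SS.sx hSU hCV hXF
theorem hSG : S_SG := Pool.Agent.Y614.SS.sg hXF hCL
theorem hSC : S_SC := Pool.Agent.Y614.SS.sc hXF hCV

end Pool.Agent.Y250.SS
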