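import Pool.Agent.Y183.PP.H
import Pool.Agent.Helper793.Nir.Sph3
set_option autoImplicit false

/-! Project SS: definitions and statements. Extension estimates for the unit sphere of `ℝ³`,
densities `e^{iP} g` with an arbitrary real polynomial `P` in three variables. -/

namespace Pool.Agent.Y250.SS

open MeasureTheory Set Complex Filter Topology
open scoped ENNReal NNReal
open Pool.Agent.Y183.PP (Poly ev)

/-! ### Linear algebra of a pencil -/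

/-- the matrix `(e, f; f, g)` is at least the identity matrix -/
def GE1 (e f g : ℝ) : Prop := 1 ≤ e ∧ 1 ≤ g ∧ f ^ 2 ≤ (e - 1) * (g - 1)

/-- both generalized eigenvalues of `(α, β; β, γ)` with respect to `(e, f; f, g)` are larger than
`s` in absolute value -/
def CD (s α β γ e f g : ℝ) : Prop :=
  0 < (g * α - 2 * f * β + e * γ) ^ 2 - 2 * (e * g - f ^ 2) * (α * γ - β ^ 2) -
    2 * s ^ 2 * (e * g - f ^ 2) ^ 2 ∧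
  0 < ((α * γ - β ^ 2) + s ^ 2 * (e * g - f ^ 2)) ^ 2 - s ^ 2 * (g * α - 2 * f * β + e * γ) ^ 2

/-- nondegeneracy -/
def S_ND : Prop := ∀ s α β γ e f g : ℝ, 0 < s → GE1 e f g → CD s α β γ e f g → ∀ a b : ℝ,
  s ^ 2 * (a ^ 2 + b ^ 2) ≤ (α * a + β * b) ^ 2 + (β * a + γ * b) ^ 2

/-- the exceptional values of the parameter -/
def S_TM : Prop := ∀ a b c e f g : ℝ, GE1 e f g → ∃ t₁ t₂ : ℝ, ∀ s τ : ℝ, 0 < s →
  s < |τ - t₁| → s < |τ - t₂| → CD s (a - τ * e) (b - τ * f) (c - τ * g) e f g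

/-- monotonicity -/
def S_AN : Prop := ∀ s s' α β γ e f g : ℝ, 0 < s → s ≤ s' → GE1 e f g → CD s' α β γ e f g →
  CD s α β γ e f g

/-- large parameters -/
def S_LG : Prop := ∀ s α β γ e f g : ℝ, 0 < s → GE1 e f g → CD s α β γ e f g →
  s ^ 2 ≤ (g * α - 2 * f * β + e * γ) ^ 2 - 2 * (e * g - f ^ 2) * (α * γ - β ^ 2)

/-! ### Polynomials on the lower half sphere -/

/-- real polynomials in three variables -/
abbrev Poly3 := MvPolynomial (Fin 3) ℝ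

/-- value of a polynomial -/
noncomputable def ev3 (P : Poly3) (a b c : ℝ) : ℝ := MvPolynomial.eval ![a, b, c] P

/-- partial derivatives -/
noncomputable def pd (i : Fin 3) (P : Poly3) : Poly3 := MvPolynomial.pderiv i P

/-- the height of the upper half sphere over the plane -/
noncomputable def hh (x : ℝ × ℝ) : ℝ := √(1 - x.1 ^ 2 - x.2 ^ 2)

/-- the polynomial as a function on the lower half sphere, in graph coordinates -/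
noncomputable def ph (P : Poly3) (x : ℝ × ℝ) : ℝ := ev3 P x.1 x.2 (-hh x)

/-- the gradient of `ph P` -/
noncomputable def g1 (P : Poly3) (x : ℝ × ℝ) : ℝ :=
  ev3 (pd 0 P) x.1 x.2 (-hh x) + x.1 / hh x * ev3 (pd 2 P) x.1 x.2 (-hh x)
noncomputable def g2 (P : Poly3) (x : ℝ × ℝ) : ℝ :=
  ev3 (pd 1 P) x.1 x.2 (-hh x) + x.2 / hh x * ev3 (pd 2 P) x.1 x.2 (-hh x)

/-- the Hessian of `-hh` -/
noncomputable def G11 (x : ℝ × ℝ) : ℝ := 1 / hh x + x.1 ^ 2 / hh x ^ 3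
noncomputable def G12 (x : ℝ × ℝ) : ℝ := x.1 * x.2 / hh x ^ 3
noncomputable def G22 (x : ℝ × ℝ) : ℝ := 1 / hh x + x.2 ^ 2 / hh x ^ 3

/-- the Hessian of `ph P` -/
noncomputable def H11 (P : Poly3) (x : ℝ × ℝ) : ℝ :=
  ev3 (pd 0 (pd 0 P)) x.1 x.2 (-hh x) + 2 * (x.1 / hh x) * ev3 (pd 0 (pd 2 P)) x.1 x.2 (-hh x) +
    (x.1 / hh x) ^ 2 * ev3 (pd 2 (pd 2 P)) x.1 x.2 (-hh x) + G11 x * ev3 (pd 2 P) x.1 x.2 (-hh x)
noncomputable def H12 (P : Poly3) (x : ℝ × ℝ) : ℝ :=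
  ev3 (pd 0 (pd 1 P)) x.1 x.2 (-hh x) + x.2 / hh x * ev3 (pd 0 (pd 2 P)) x.1 x.2 (-hh x) +
    x.1 / hh x * ev3 (pd 1 (pd 2 P)) x.1 x.2 (-hh x) +
    (x.1 / hh x) * (x.2 / hh x) * ev3 (pd 2 (pd 2 P)) x.1 x.2 (-hh x) +
    G12 x * ev3 (pd 2 P) x.1 x.2 (-hh x)
noncomputable def H22 (P : Poly3) (x : ℝ × ℝ) : ℝ :=
  ev3 (pd 1 (pd 1 P)) x.1 x.2 (-hh x) + 2 * (x.2 / hh x) * ev3 (pd 1 (pd 2 P)) x.1 x.2 (-hh x) +
    (x.2 / hh x) ^ 2 * ev3 (pd 2 (pd 2 P)) x.1 x.2 (-hh x) + G22 x * ev3 (pd 2 P) x.1 x.2 (-hh x)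

/-- the linear form `a dx + b dy` -/
noncomputable def lf (a b : ℝ) : ℝ × ℝ →L[ℝ] ℝ :=
  a • ContinuousLinearMap.fst ℝ ℝ ℝ + b • ContinuousLinearMap.snd ℝ ℝ ℝ

/-- derivatives in graph coordinates -/
def S_GR : Prop := ∀ (P : Poly3) (x : ℝ × ℝ), x.1 ^ 2 + x.2 ^ 2 < 1 →
  HasFDerivAt (ph P) (lf (g1 P x) (g2 P x)) x ∧
  HasFDerivAt (g1 P) (lf (H11 P x) (H12 P x)) x ∧ HasFDerivAt (g2 P) (lf (H12 P x) (H22 P x)) x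

/-- the graph is uniformly convex -/
def S_GE : Prop := ∀ x : ℝ × ℝ, x.1 ^ 2 + x.2 ^ 2 < 1 → GE1 (G11 x) (G12 x) (G22 x)

/-- the region where the Hessian of `ph P` is nondegenerate of order `s` -/
def RG (P : Poly3) (s : ℝ) : Set (ℝ × ℝ) :=
  {x | CD s (H11 P x) (H12 P x) (H22 P x) (G11 x) (G12 x) (G22 x)}

/-- adding the phase of the extension operator -/
noncomputable def tw (P : Poly3) (y : ℝ × ℝ) (t : ℝ) : Poly3 :=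
  P + MvPolynomial.C (2 * Real.pi * y.1) * MvPolynomial.X 0 +
    MvPolynomial.C (2 * Real.pi * y.2) * MvPolynomial.X 1 -
    MvPolynomial.C (2 * Real.pi * t) * MvPolynomial.X 2

/-- its properties -/
def S_TW : Prop := ∀ (P : Poly3) (y : ℝ × ℝ) (t : ℝ),
  (∀ n : ℕ, 1 ≤ n → P.totalDegree ≤ n → (tw P y t).totalDegree ≤ n) ∧
  (∀ x, ph (tw P y t) x = ph P x + 2 * Real.pi * (x.1 * y.1 + x.2 * y.2 + hh x * t)) ∧
  (∀ x, H11 (tw P y t) x = H11 P x - 2 * Real.pi * t * G11 x) ∧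
  (∀ x, H12 (tw P y t) x = H12 P x - 2 * Real.pi * t * G12 x) ∧
  (∀ x, H22 (tw P y t) x = H22 P x - 2 * Real.pi * t * G22 x)

/-! ### Stereographic coordinates -/

noncomputable def w (u : ℝ × ℝ) : ℝ := 1 + u.1 ^ 2 + u.2 ^ 2

/-- the point of the plane below (or above) the point of the sphere with stereographic
coordinate `u` -/
noncomputable def X (u : ℝ × ℝ) : ℝ × ℝ := (2 * u.1 / w u, 2 * u.2 / w u)

/-- the derivative of `X` -/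
noncomputable def X11 (u : ℝ × ℝ) : ℝ := 2 * (1 - u.1 ^ 2 + u.2 ^ 2) / w u ^ 2
noncomputable def X12 (u : ℝ × ℝ) : ℝ := -(4 * u.1 * u.2) / w u ^ 2
noncomputable def X22 (u : ℝ × ℝ) : ℝ := 2 * (1 + u.1 ^ 2 - u.2 ^ 2) / w u ^ 2

/-- the Jacobian determinant -/
noncomputable def jac (u : ℝ × ℝ) : ℝ := 4 * (2 - w u) / w u ^ 3

/-- the small disc -/
def U (n : ℕ) : Set (ℝ × ℝ) := {u | u.1 ^ 2 + u.2 ^ 2 < 1 / (6 * n)}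

/-- its image -/
def S (n : ℕ) : Set (ℝ × ℝ) := X '' U n

/-- calculus of `X` -/
def S_XD : Prop := ∀ u : ℝ × ℝ, HasFDerivAt X ((lf (X11 u) (X12 u)).prod (lf (X12 u) (X22 u))) u

/-- further facts on `X` -/
def S_XF : Prop := (∀ u, u.1 ^ 2 + u.2 ^ 2 ≤ 1 → hh (X u) = (2 - w u) / w u) ∧
  (∀ u, u.1 ^ 2 + u.2 ^ 2 < 1 → (X u).1 ^ 2 + (X u).2 ^ 2 < 1) ∧
  (∀ n : ℕ, 1 ≤ n → ∀ u ∈ U n, ∀ a b : ℝ,
    a ^ 2 + b ^ 2 ≤ (X11 u * a + X12 u * b) ^ 2 + (X12 u * a + X22 u * b) ^ 2) ∧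
  (∀ n : ℕ, 1 ≤ n → {x : ℝ × ℝ | x.1 ^ 2 + x.2 ^ 2 < 1 / (6 * n)} ⊆ S n) ∧
  (∀ n : ℕ, 1 ≤ n → ∀ x ∈ S n, x.1 ^ 2 + x.2 ^ 2 < 2 / 3) ∧
  (∀ n : ℕ, 1 ≤ n → MeasurableSet (S n))

/-- change of variables -/
def S_CV : Prop := ∀ n : ℕ, 1 ≤ n → ∀ f : ℝ × ℝ → ℂ,
  ∫ x in S n, f x = ∫ u in U n, ((jac u : ℝ) : ℂ) * f (X u)

/-- change of variables for nonnegative functions -/
def S_CL : Prop := ∀ n : ℕ, 1 ≤ n → ∀ f : ℝ × ℝ → ℝ≥0∞,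
  ∫⁻ x in S n, f x = ∫⁻ u in U n, ENNReal.ofReal (jac u) * f (X u)

/-- homogenization -/
def S_HT : Prop := ∀ (P : Poly3) (n : ℕ), P.totalDegree ≤ n → ∃ Q : Poly, Q.totalDegree ≤ 2 * n ∧
  ∀ u : ℝ × ℝ, ev Q u = w u ^ n * ev3 P (2 * u.1 / w u) (2 * u.2 / w u) (1 - 2 / w u)

/-- the phase in stereographic coordinates -/
noncomputable def Ps (P : Poly3) (u : ℝ × ℝ) : ℝ :=
  ev3 P (2 * u.1 / w u) (2 * u.2 / w u) (1 - 2 / w u)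

/-- the gradient as a polynomial -/
def S_GP : Prop := ∀ (P : Poly3) (n : ℕ), P.totalDegree ≤ n → ∃ p q : Poly,
  p.totalDegree ≤ 2 * n + 2 ∧ q.totalDegree ≤ 2 * n + 2 ∧
  ∀ u : ℝ × ℝ, u.1 ^ 2 + u.2 ^ 2 < 1 → ev p u = (2 - w u) * w u ^ n * g1 P (X u) ∧
    ev q u = (2 - w u) * w u ^ n * g2 P (X u)

/-- the regions are defined by polynomials -/
def S_RP : Prop := ∀ (P : Poly3) (n : ℕ) (s : ℝ), P.totalDegree ≤ n → ∃ p q : Poly,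
  p.totalDegree ≤ 8 * n + 24 ∧ q.totalDegree ≤ 8 * n + 24 ∧
  ∀ u : ℝ × ℝ, u.1 ^ 2 + u.2 ^ 2 < 1 → (X u ∈ RG P s ↔ 0 < ev p u ∧ 0 < ev q u)

/-- **measure of the exceptional lines** -/
def S_EX : Prop := ∃ C : ℝ, 0 < C ∧ ∀ (n : ℕ) (P : Poly3) (s lam : ℝ), 1 ≤ n → P.totalDegree ≤ n →
  0 < lam → lam ≤ s / (100 * n) →
  volume {b : ℝ | ∃ a : ℝ, (a, b) ∈ U n ∧ |g1 P (X (a, b))| < 2 * lam ∧
    |g2 P (X (a, b))| < 2 * lam ∧ X (a, b) ∈ RG P s} ≤ ENNReal.ofReal (C * n ^ 4 * lam / s)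

/-- the gradient of `Ps P` on the unit disc -/
noncomputable def Eu1 (P : Poly3) (u : ℝ × ℝ) : ℝ := X11 u * g1 P (X u) + X12 u * g2 P (X u)
noncomputable def Eu2 (P : Poly3) (u : ℝ × ℝ) : ℝ := X12 u * g1 P (X u) + X22 u * g2 P (X u)

/-- the derivative in the first variable dominates -/
def HF (b : Bool) (P : Poly3) : Set (ℝ × ℝ) :=
  {u | if b then |Eu2 P u| < |Eu1 P u| else |Eu2 P u| ≤ |Eu1 P u|}

/-- **one half of the sup bound** -/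
def S_SH : Prop := ∃ C : ℝ, 0 < C ∧ ∀ (n : ℕ) (P : Poly3) (j : ℕ) (s' : ℝ) (b : Bool), 1 ≤ n →
  P.totalDegree ≤ n →
  ‖∫ u in U n, (X ⁻¹' (RG P (2 ^ j) \ RG P s') ∩ HF b P).indicator
    (fun u => ((jac u : ℝ) : ℂ) * cexp ((Ps P u : ℂ) * I)) u‖ ≤ C * n ^ 5 * (1 + j) / 2 ^ j

/-- **the sup bound in stereographic coordinates** -/
def S_SU : Prop := ∃ C : ℝ, 0 < C ∧ ∀ (n : ℕ) (P : Poly3) (j : ℕ) (s' : ℝ), 1 ≤ n →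
  P.totalDegree ≤ n →
  ‖∫ u in U n, (X ⁻¹' (RG P (2 ^ j) \ RG P s')).indicator
    (fun u => ((jac u : ℝ) : ℂ) * cexp ((Ps P u : ℂ) * I)) u‖ ≤ C * n ^ 5 * (1 + j) / 2 ^ j

/-- **the sup bound in graph coordinates** -/
def S_SX : Prop := ∃ C : ℝ, 0 < C ∧ ∀ (n : ℕ) (P : Poly3) (j : ℕ) (s' : ℝ), 1 ≤ n →
  P.totalDegree ≤ n →
  ‖∫ x in S n, (RG P (2 ^ j) \ RG P s').indicator (fun x => cexp ((ph P x : ℂ) * I)) x‖ ≤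
    C * n ^ 5 * (1 + j) / 2 ^ j

/-! ### The abstract estimate -/

/-- a phase with its regions of nondegeneracy -/
structure Data (b : ℝ) where
  S : Set (ℝ × ℝ)
  φ : ℝ × ℝ → ℝ
  η : ℝ × ℝ → ℝ
  B : ℕ → ℝ → Set (ℝ × ℝ)
  S_meas : MeasurableSet S
  S_sub : S ⊆ Icc (-1 : ℝ) 1 ×ˢ Icc (-1 : ℝ) 1
  φ_meas : Measurable φ
  η_meas : Measurable η
  B_meas : ∀ k, MeasurableSet {v : ℝ × (ℝ × ℝ) | v.2 ∈ B k v.1}
  anti : ∀ k t, B (k + 1) t ⊆ B k t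
  empty : ∀ t, ∃ J, ∀ z ∈ S, z ∉ B J t
  time : ∀ k, ∀ z ∈ S, volume {t : ℝ | z ∉ B k t} ≤ ENNReal.ofReal (2 ^ k)
  sup : ∀ (k : ℕ) (y : ℝ × ℝ) (t : ℝ),
    ‖∫ z in S, (B k t \ B (k + 1) t).indicator (fun z =>
      cexp (((φ z + 2 * Real.pi * (z.1 * y.1 + z.2 * y.2 + η z * t) : ℝ) : ℂ) * I)) z‖ ≤
      b * (1 + k) / 2 ^ k

/-- the oscillating factor -/
noncomputable def Data.ex {b : ℝ} (D : Data b) (y : ℝ × ℝ) (t : ℝ) (z : ℝ × ℝ) : ℂ :=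
  cexp (((D.φ z + 2 * Real.pi * (z.1 * y.1 + z.2 * y.2 + D.η z * t) : ℝ) : ℂ) * I)

/-- the mean modulus of continuity of a function of two variables -/
def Bes (s : ℝ) (K : ℝ≥0) (g : ℝ × ℝ → ℂ) : Prop := Measurable g ∧ ∫⁻ z, ‖g z‖ₑ ^ 2 ≤ K ^ 2 ∧
  ∀ δ : ℝ, 0 < δ → δ ≤ 1 → ∫⁻ h in {h : ℝ × ℝ | ‖h‖ ≤ δ}, ∫⁻ z, ‖g (z - h) - g z‖ₑ ^ 2 ≤
    K ^ 2 * ENNReal.ofReal (δ ^ (2 + 2 * s))

/-- **the abstract estimate** -/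
def S_AB : Prop := ∀ q s : ℝ, 3 < q → 1 / q < s → s ≤ 1 → ∃ C : ℝ≥0, ∀ (b : ℝ≥0) (D : Data b)
  (r : ℝ) (g : ℝ × ℝ → ℂ) (K : ℝ≥0), 1 ≤ b → 0 < r → r ≤ 1 → Bes s K g →
  (∀ z z' : ℝ × ℝ, ‖z - z'‖ ≤ r → z' ∉ D.S → g z = 0) →
  (∫⁻ t : ℝ, ∫⁻ y : ℝ × ℝ, ‖∫ z, g z * D.ex y t z‖ₑ ^ q) ^ (1 / q) ≤
    C * b * K * ENNReal.ofReal (1 / r)

/-! ### The sphere -/

open Pool.Agent.Helper793.Nir (E3 S2 sig)

/-- the point of the lower half sphere -/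
noncomputable def Lo (x : ℝ × ℝ) : E3 := !₂[x.1, x.2, -hh x]

/-- the surface measure in graph coordinates -/
def S_SG : Prop := ∀ (n : ℕ) (F : E3 → ℝ≥0∞), 1 ≤ n → Measurable F →
  ∫⁻ x in {x : S2 | (x : E3) 2 < 0 ∧ ((x : E3) 0, (x : E3) 1) ∈ S n}, F x ∂sig =
    ∫⁻ x in S n, ENNReal.ofReal (1 / hh x) * F (Lo x)

/-- the surface measure in graph coordinates, complex functions -/
def S_SC : Prop := ∀ (n : ℕ) (F : E3 → ℂ), 1 ≤ n → Measurable F →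
  ∫ x in {x : S2 | (x : E3) 2 < 0 ∧ ((x : E3) 0, (x : E3) 1) ∈ S n}, F x ∂sig =
    ∫ x in S n, ((1 / hh x : ℝ) : ℂ) * F (Lo x)

end Pool.Agent.Y250.SS
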