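import Pool.Agent.Y250.SS.Stm2
import Pool.Agent.Y250.SS.A4
set_option autoImplicit false

/-! Project SS, part 3: the sharp regularity. -/

namespace Pool.Agent.Y250.SS

open MeasureTheory Set Complex Filter Topology
open scoped ENNReal NNReal RealInnerProductSpace
open Pool.Agent.Helper793.Nir (E3 S2 sig rot)

/-- **the theorem of Tomas and Stein** for bounded densities on the sphere of `ℝ³`, away from the
endpoint -/
def S_TS : Prop := ∀ P : ℝ, 4 < P → ∃ C : ℝ≥0, ∀ g : S2 → ℂ, Measurable g →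
  (∃ M : ℝ, ∀ x, ‖g x‖ ≤ M) → eLpNorm (ft g) (ENNReal.ofReal P) volume ≤ C * eLpNorm g 2 sig

/-- an estimate `L² → L^P` for the extension operator -/
def TSD {b : ℝ} (D : Data b) (P : ℝ) (C : ℝ≥0) : Prop := ∀ f : ℝ × ℝ → ℂ, Measurable f →
  (∃ M : ℝ, ∀ z, ‖f z‖ ≤ M) → (∀ z, z ∉ D.S → f z = 0) →
  eLpNorm (D.T f) (ENNReal.ofReal P) volume ≤ C * eLpNorm f 2 volume

/-- **the theorem of Tomas and Stein in graph coordinates** -/
def S_TG : Prop := ∀ P : ℝ, 4 < P → ∃ C : ℝ≥0, ∀ (n : ℕ) (Q : Poly3) (b : ℝ) (D : Data b), 1 ≤ n →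
  D.S = S n → D.φ = ph Q → D.η = hh → TSD D P C

/-- **optimality of the regularity** -/
def S_KN : Prop := ∀ q s : ℝ, 3 < q → 0 < s → s < 4 / q - 1 → ∀ C : ℝ≥0,
  ∃ (g : S2 → ℂ) (K : ℝ≥0), BesS s K g ∧ (C * K : ℝ≥0∞) < eLpNorm (ft g) (ENNReal.ofReal q) volume

end Pool.Agent.Y250.SS
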